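import Pool.Agent.H53.FV.KF

/-!
[H53 FV CNT A] counting at one vertex.
-/

namespace Pool.Agent.H53.FV.A

open Finset Classical

variable {V : Type} [Fintype V]

private theorem cn_off (G : SimpleGraph V) (u v : V) :
    (cn G u v).offDiag = (nb G u).offDiag.filter (fun p => G.Adj v p.1 ∧ G.Adj v p.2) := by
  ext ⟨x, y⟩
  simp only [cn, nb, mem_offDiag, mem_filter, mem_univ, true_and]
  tauto

private theorem tri_eq (G : SimpleGraph V) (u : V) :
    tri G u = ((nb G u).offDiag.filter (fun p => G.Adj p.1 p.2)).card := by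
  have h1 : ∀ v, (cn G u v).card = ∑ w ∈ nb G u, (if G.Adj v w then 1 else 0) := by
    intro v
    rw [← Finset.card_filter]
    congr 1
    ext w
    simp only [cn, nb, mem_filter, mem_univ, true_and]
  have h2 : tri G u = (((nb G u) ×ˢ (nb G u)).filter (fun p => G.Adj p.1 p.2)).card := by
    rw [Finset.card_filter, Finset.sum_product]
    exact Finset.sum_congr rfl fun v _ => h1 v
  rw [h2]
  congr 1
  ext ⟨x, y⟩
  simp only [mem_filter, mem_product, mem_offDiag]
  constructor
  · rintro ⟨⟨h3, h4⟩, h5⟩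
    exact ⟨⟨h3, h4, h5.ne⟩, h5⟩
  · rintro ⟨⟨h3, h4, -⟩, h5⟩
    exact ⟨⟨h3, h4⟩, h5⟩

theorem loc (G : SimpleGraph V) (hG : Crit G) (hH : NoH G) (u : V) :
    opp G u + tri G u + (nb G u).card ≤ (nb G u).card * (nb G u).card := by
  have h1 : opp G u = ∑ p ∈ (nb G u).offDiag, ∑ v ∈ nb G u, (if G.Adj v p.1 ∧ G.Adj v p.2 then 1 else 0) := by
    unfold opp
    rw [Finset.sum_comm]
    refine Finset.sum_congr rfl fun v _ => ?_
    rw [cn_off, Finset.card_filter]
  have h2 : tri G u = ∑ p ∈ (nb G u).offDiag, (if G.Adj p.1 p.2 then 1 else 0) := by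
    rw [tri_eq, Finset.card_filter]
  have h3 : opp G u + tri G u ≤ ∑ p ∈ (nb G u).offDiag, 1 := by
    rw [h1, h2, ← Finset.sum_add_distrib]
    refine Finset.sum_le_sum fun p hp => ?_
    obtain ⟨x, y⟩ := p
    simp only [mem_offDiag, nb, mem_filter, mem_univ, true_and] at hp
    obtain ⟨hx, hy, hxy⟩ := hp
    show ∑ v ∈ nb G u, (if G.Adj v x ∧ G.Adj v y then 1 else 0) + (if G.Adj x y then 1 else 0) ≤ 1
    rw [← Finset.card_filter]
    by_cases h : G.Adj x y
    · rw [if_pos h]
      have h4 : (nb G u).filter (fun v => G.Adj v x ∧ G.Adj v y) = ∅ := by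
        rw [Finset.filter_eq_empty_iff]
        rintro v hv ⟨hvx, hvy⟩
        simp only [nb, mem_filter, mem_univ, true_and] at hv
        exact k4 G hG hH u v x y hv hx hy hvx hvy h
      rw [h4]
      simp
    · rw [if_neg h, add_zero]
      refine Finset.card_le_one.2 fun v hv w hw => ?_
      simp only [nb, mem_filter, mem_univ, true_and] at hv hw
      obtain ⟨hv, hvx, hvy⟩ := hv
      obtain ⟨hw, hwx, hwy⟩ := hw
      rcases hH u v x y w hv hx.symm hvx.symm hy.symm hvy.symm hxy hwx hwy with h5 | h5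
      · exact absurd h5 hw.ne'
      · exact h5.symm
  rw [Finset.sum_const, smul_eq_mul, mul_one, Finset.offDiag_card] at h3
  have h4 : (nb G u).card ≤ (nb G u).card * (nb G u).card := Nat.le_mul_self _
  omega

theorem even (G : SimpleGraph V) (u : V) : Even (tri G u) := by
  rw [tri_eq]
  set A := (nb G u).offDiag.filter (fun p => G.Adj p.1 p.2) with hA
  have h1 : ∑ p ∈ A, (1 : ZMod 2) = 0 := by
    refine Finset.sum_involution (fun p _ => (p.2, p.1)) ?_ ?_ ?_ ?_
    · intro p _
      decide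
    · intro p hp _ h
      have h2 := (Finset.mem_filter.1 hp).2
      have h3 : p.2 = p.1 := congrArg Prod.fst h
      exact h2.ne h3.symm
    · intro p hp
      rw [hA, mem_filter, mem_offDiag] at hp ⊢
      exact ⟨⟨hp.1.2.1, hp.1.1, hp.1.2.2.symm⟩, hp.2.symm⟩
    · intro p _
      rfl
  rw [Finset.sum_const, nsmul_eq_mul, mul_one] at h1
  exact (ZMod.natCast_eq_zero_iff_even).1 h1

private theorem pt (c k : ℕ) : 2 * k * c ≤ (c * c - c) + k * (k + 1) := by
  have h1 : c ≤ c * c := Nat.le_mul_self c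
  zify [h1]
  rcases le_or_gt c k with h | h
  · obtain ⟨m, rfl⟩ := Nat.exists_eq_add_of_le h
    push_cast
    nlinarith [sq_nonneg (m : ℤ), Int.natCast_nonneg m]
  · obtain ⟨m, rfl⟩ := Nat.exists_eq_add_of_lt h
    push_cast
    nlinarith [sq_nonneg (m : ℤ), Int.natCast_nonneg m]

theorem tang (G : SimpleGraph V) (u : V) (k : ℕ) :
    2 * k * tri G u ≤ opp G u + k * (k + 1) * (nb G u).card := by
  unfold tri opp
  rw [Finset.mul_sum, mul_comm (k * (k + 1)), ← smul_eq_mul (a := (nb G u).card), ← Finset.sum_const,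
    ← Finset.sum_add_distrib]
  refine Finset.sum_le_sum fun v _ => ?_
  rw [Finset.offDiag_card]
  exact pt _ _

end Pool.Agent.H53.FV.A
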