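import Pool.Agent.H53.FV.KF

/-!
[H53 FV CNT B] `glob`: sum over u of S + 2 * sum of d <= 2 * (card U * (card U - 1)), U the vertices with a neighbour: for x /= y:
#{(u,v) : u v adjacent, both common neighbours of x and y} + 2 [x y adjacent] <= 2 (`NoH`, `k4`).
-/

namespace Pool.Agent.H53.FV.B

open Finset Classical Pool.Agent.H53.FV

variable {V : Type} [Fintype V]

private def Cf (G : SimpleGraph V) (p q : V × V) : Prop :=
  G.Adj q.1 q.2 ∧ p.1 ≠ p.2 ∧ G.Adj q.1 p.1 ∧ G.Adj q.2 p.1 ∧ G.Adj q.1 p.2 ∧ G.Adj q.2 p.2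

private theorem opp_eq (G : SimpleGraph V) (u : V) :
    opp G u = ∑ v : V, ∑ p : V × V, if Cf G p (u, v) then 1 else 0 := by
  unfold opp nb
  rw [Finset.sum_filter]
  refine Finset.sum_congr rfl fun v _ => ?_
  split_ifs with h
  · rw [← Finset.card_filter]
    congr 1
    ext p
    simp only [Finset.mem_offDiag, cn, Finset.mem_filter, Finset.mem_univ, true_and, Cf]
    constructor
    · rintro ⟨⟨h1, h2⟩, ⟨h3, h4⟩, h5⟩
      exact ⟨h, h5, h1, h2, h3, h4⟩
    · rintro ⟨-, h5, h1, h2, h3, h4⟩
      exact ⟨⟨h1, h2⟩, ⟨h3, h4⟩, h5⟩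
  · symm
    refine Finset.sum_eq_zero fun p _ => ?_
    exact if_neg fun h' => h h'.1

private theorem sum_opp (G : SimpleGraph V) :
    ∑ u, opp G u = ∑ p : V × V, (univ.filter fun q : V × V => Cf G p q).card := by
  have h1 : ∑ u, opp G u = ∑ q : V × V, ∑ p : V × V, if Cf G p q then 1 else 0 := by
    rw [Fintype.sum_prod_type]
    exact Finset.sum_congr rfl fun u _ => opp_eq G u
  rw [h1, Finset.sum_comm]
  exact Finset.sum_congr rfl fun p _ => (Finset.card_filter _ _).symm

private theorem sum_nb (G : SimpleGraph V) :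
    ∑ u, (nb G u).card = ∑ p : V × V, if G.Adj p.1 p.2 then 1 else 0 := by
  rw [Fintype.sum_prod_type]
  refine Finset.sum_congr rfl fun u _ => ?_
  unfold nb
  rw [Finset.card_filter]

private theorem one_pair (G : SimpleGraph V) (hG : Crit G) (hH : NoH G) (p : V × V) :
    (univ.filter fun q : V × V => Cf G p q).card + 2 * (if G.Adj p.1 p.2 then 1 else 0) ≤ 2 := by
  by_cases hp : G.Adj p.1 p.2
  · have : (univ.filter fun q : V × V => Cf G p q) = ∅ := by
      rw [Finset.filter_eq_empty_iff]
      rintro q - ⟨h0, _, h1, h2, h3, h4⟩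
      exact k4 G hG hH q.1 q.2 p.1 p.2 h0 h1 h3 h2 h4 hp
    rw [this, if_pos hp]
    simp
  · rw [if_neg hp]
    by_cases hne : (univ.filter fun q : V × V => Cf G p q).Nonempty
    · obtain ⟨⟨u, v⟩, hq⟩ := hne
      rw [Finset.mem_filter] at hq
      obtain ⟨-, h0, hxy, h1, h2, h3, h4⟩ := hq
      have hsub : (univ.filter fun q : V × V => Cf G p q) ⊆ {(u, v), (v, u)} := by
        rintro ⟨u', v'⟩ hq'
        rw [Finset.mem_filter] at hq'
        obtain ⟨-, k0, -, k1, k2, k3, k4'⟩ := hq'
        have a1 := hH u v p.1 p.2 u' h0 h1.symm h2.symm h3.symm h4.symm hxy k1 k3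
        have a2 := hH u v p.1 p.2 v' h0 h1.symm h2.symm h3.symm h4.symm hxy k2 k4'
        have k5 : u' ≠ v' := k0.ne
        rw [Finset.mem_insert, Finset.mem_singleton]
        rcases a1 with rfl | rfl
        · rcases a2 with rfl | rfl
          · exact absurd rfl k5
          · exact Or.inl rfl
        · rcases a2 with rfl | rfl
          · exact Or.inr rfl
          · exact absurd rfl k5
      have := Finset.card_le_card hsub
      have h5 : ({(u, v), (v, u)} : Finset (V × V)).card ≤ 2 := Finset.card_le_two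
      omega
    · rw [Finset.not_nonempty_iff_eq_empty] at hne
      rw [hne]
      simp

theorem glob (G : SimpleGraph V) (hG : Crit G) (hH : NoH G) :
    ∑ u, opp G u + 2 * ∑ u, (nb G u).card + 2 * (univ.filter fun u => (nb G u).Nonempty).card ≤
      2 * ((univ.filter fun u => (nb G u).Nonempty).card * (univ.filter fun u => (nb G u).Nonempty).card) := by
  set U : Finset V := univ.filter fun u => (nb G u).Nonempty with hU
  have hmem : ∀ x y : V, G.Adj x y → x ∈ U := by
    intro x y h
    rw [hU, Finset.mem_filter]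
    exact ⟨Finset.mem_univ _, y, by unfold nb; simp [h]⟩
  have h1 : ∑ u, opp G u + 2 * ∑ u, (nb G u).card = ∑ p : V × V,
      ((univ.filter fun q : V × V => Cf G p q).card + 2 * (if G.Adj p.1 p.2 then 1 else 0)) := by
    rw [sum_opp, sum_nb, Finset.sum_add_distrib, Finset.mul_sum]
  have h2 : ∑ p : V × V,
      ((univ.filter fun q : V × V => Cf G p q).card + 2 * (if G.Adj p.1 p.2 then 1 else 0)) =
      ∑ p ∈ U.offDiag,
      ((univ.filter fun q : V × V => Cf G p q).card + 2 * (if G.Adj p.1 p.2 then 1 else 0)) := by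
    symm
    refine Finset.sum_subset (Finset.subset_univ _) fun p _ hp => ?_
    rw [Finset.mem_offDiag] at hp
    have a1 : ¬ G.Adj p.1 p.2 := fun h => hp ⟨hmem _ _ h, hmem _ _ h.symm, h.ne⟩
    have a2 : (univ.filter fun q : V × V => Cf G p q) = ∅ := by
      rw [Finset.filter_eq_empty_iff]
      rintro q - ⟨h0, h5, k1, k2, k3, k4'⟩
      exact hp ⟨hmem _ _ k1.symm, hmem _ _ k3.symm, h5⟩
    rw [a2, if_neg a1]
    simp
  have h3 : ∑ p ∈ U.offDiag,
      ((univ.filter fun q : V × V => Cf G p q).card + 2 * (if G.Adj p.1 p.2 then 1 else 0)) ≤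
      ∑ p ∈ U.offDiag, 2 := Finset.sum_le_sum fun p _ => one_pair G hG hH p
  rw [Finset.sum_const, Finset.offDiag_card, smul_eq_mul] at h3
  have h4 : U.card ≤ U.card * U.card := Nat.le_mul_self _
  rw [h1, h2]
  have h5 : (U.card * U.card - U.card) * 2 + 2 * U.card = 2 * (U.card * U.card) := by
    have : U.card * U.card - U.card + U.card = U.card * U.card := Nat.sub_add_cancel h4
    calc (U.card * U.card - U.card) * 2 + 2 * U.card
        = 2 * (U.card * U.card - U.card + U.card) := by ring
      _ = 2 * (U.card * U.card) := by rw [this]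
  omega

/-- the equality case: two different vertices which are not adjacent have exactly two common neighbours -/
theorem pair_two (G : SimpleGraph V) (hG : Crit G) (hH : NoH G)
    (hsum : ∑ u, opp G u + 2 * ∑ u, (nb G u).card + 2 * Fintype.card V = 2 * (Fintype.card V * Fintype.card V))
    (x y : V) (hxy : x ≠ y) (hn : ¬ G.Adj x y) : (cn G x y).card = 2 := by
  set f : V × V → ℕ := fun p => (univ.filter fun q : V × V => Cf G p q).card + 2 * (if G.Adj p.1 p.2 then 1 else 0) with hf
  have h1 : ∑ u, opp G u + 2 * ∑ u, (nb G u).card = ∑ p : V × V, f p := by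
    rw [sum_opp, sum_nb, hf, Finset.sum_add_distrib, Finset.mul_sum]
  have h2 : ∑ p : V × V, f p = ∑ p ∈ (univ : Finset V).offDiag, f p := by
    symm
    refine Finset.sum_subset (Finset.subset_univ _) fun p _ hp => ?_
    rw [Finset.mem_offDiag] at hp
    have hpp : p.1 = p.2 := by
      by_contra h
      exact hp ⟨Finset.mem_univ _, Finset.mem_univ _, h⟩
    have a1 : ¬ G.Adj p.1 p.2 := fun h => h.ne hpp
    have a2 : (univ.filter fun q : V × V => Cf G p q) = ∅ := by
      rw [Finset.filter_eq_empty_iff]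
      rintro q - ⟨h0, h5, k1, k2, k3, k4'⟩
      exact h5 hpp
    show (univ.filter fun q : V × V => Cf G p q).card + 2 * (if G.Adj p.1 p.2 then 1 else 0) = 0
    rw [a2, if_neg a1]
    simp
  have h3 : ∀ p ∈ (univ : Finset V).offDiag, f p ≤ 2 := fun p _ => one_pair G hG hH p
  have h4 : ∑ p ∈ (univ : Finset V).offDiag, f p = ∑ p ∈ (univ : Finset V).offDiag, 2 := by
    rw [Finset.sum_const, Finset.offDiag_card, smul_eq_mul, Finset.card_univ, ← h2, ← h1]
    have h5 : Fintype.card V ≤ Fintype.card V * Fintype.card V := Nat.le_mul_self _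
    have h6 : Fintype.card V * Fintype.card V - Fintype.card V + Fintype.card V = Fintype.card V * Fintype.card V :=
      Nat.sub_add_cancel h5
    omega
  have h5 := (Finset.sum_eq_sum_iff_of_le h3).1 h4 (x, y) (Finset.mem_offDiag.2 ⟨Finset.mem_univ _, Finset.mem_univ _, hxy⟩)
  have h6 : (univ.filter fun q : V × V => Cf G (x, y) q).card = 2 := by
    have h7 : (univ.filter fun q : V × V => Cf G (x, y) q).card + 2 * (if G.Adj x y then 1 else 0) = 2 := h5
    rw [if_neg hn] at h7
    simpa using h7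
  obtain ⟨⟨u, v⟩, hq⟩ : (univ.filter fun q : V × V => Cf G (x, y) q).Nonempty := by
    rw [← Finset.card_pos, h6]
    norm_num
  rw [Finset.mem_filter] at hq
  obtain ⟨-, h0, -, h1', h2', h3', h4'⟩ := hq
  have h7 : cn G x y = {u, v} := by
    ext z
    simp only [cn, Finset.mem_filter, Finset.mem_univ, true_and, Finset.mem_insert, Finset.mem_singleton]
    constructor
    · rintro ⟨hz1, hz2⟩
      exact hH u v x y z h0 h1'.symm h2'.symm h3'.symm h4'.symm hxy hz1.symm hz2.symm
    · rintro (rfl | rfl)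
      · exact ⟨h1'.symm, h3'.symm⟩
      · exact ⟨h2'.symm, h4'.symm⟩
  rw [h7, Finset.card_pair h0.ne]

end Pool.Agent.H53.FV.B
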