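import Pool.Agent.H53.FV.Def

/-!
[H53 FV EXT, part B] `star`.
-/

namespace Pool.Agent.H53.FV.B

open Finset Classical

variable {V : Type} [Fintype V]

/-- `G` without the edges at `u` -/
def del (G : SimpleGraph V) (u : V) : SimpleGraph V where
  Adj a b := G.Adj a b ∧ a ≠ u ∧ b ≠ u
  symm := ⟨fun _ _ h => ⟨h.1.symm, h.2.2, h.2.1⟩⟩
  loopless := ⟨fun _ h => h.1.ne rfl⟩

/-- the link edges at `u` -/
noncomputable def link (G : SimpleGraph V) (u : V) : Finset (Sym2 V) :=
  univ.filter fun e => e ∈ G.edgeSet ∧ ∀ x ∈ e, x ∈ nb G u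

theorem deg_link (G : SimpleGraph V) (u x : V) (S : Finset {e // e ∈ link G u}) :
    (S.filter fun e => x ∈ e.1).card ≤ (cn G u x).card := by
  classical
  have h : ((S.filter fun e => x ∈ e.1).image fun e => e.1) ⊆ (cn G u x).image fun w => s(x, w) := by
    intro e he
    simp only [mem_image, mem_filter] at he
    obtain ⟨e', ⟨_, hx⟩, rfl⟩ := he
    obtain ⟨w, hw⟩ := Sym2.mem_iff_exists.1 hx
    have hF := e'.2
    simp only [link, mem_filter, mem_univ, true_and] at hF
    rw [hw] at hF ⊢
    refine mem_image.2 ⟨w, ?_, rfl⟩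
    have h1 := hF.2 w (Sym2.mem_mk_right x w)
    simp only [nb, mem_filter, mem_univ, true_and] at h1
    simp only [cn, mem_filter, mem_univ, true_and]
    exact ⟨h1, hF.1⟩
  calc (S.filter fun e => x ∈ e.1).card
      = ((S.filter fun e => x ∈ e.1).image fun e => e.1).card :=
        (card_image_of_injective _ Subtype.val_injective).symm
    _ ≤ ((cn G u x).image fun w => s(x, w)).card := card_le_card h
    _ ≤ (cn G u x).card := card_image_le

theorem ends_card (G : SimpleGraph V) (u : V) (e : {e // e ∈ link G u}) :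
    (univ.filter fun x : V => x ∈ e.1).card = 2 := by
  classical
  have hF := e.2
  simp only [link, mem_filter, mem_univ, true_and] at hF
  obtain ⟨e, he⟩ := e
  induction e using Sym2.ind with
  | _ a b =>
    have hab : a ≠ b := by
      have := hF.1
      rw [SimpleGraph.mem_edgeSet] at this
      exact this.ne
    have : (univ.filter fun x : V => x ∈ s(a, b)) = {a, b} := by
      ext x
      simp
    simp only [this]
    exact card_pair hab

theorem hall (G : SimpleGraph V) (u : V) (h : ∀ v ∈ nb G u, (cn G u v).card ≤ 2) :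
    ∃ f : {e // e ∈ link G u} → V, Function.Injective f ∧ ∀ e, f e ∈ univ.filter fun x : V => x ∈ e.1 := by
  classical
  rw [← Finset.all_card_le_biUnion_card_iff_exists_injective]
  intro S
  have h1 : ∑ e ∈ S, (univ.filter fun x : V => x ∈ e.1).card = 2 * S.card := by
    rw [sum_congr rfl fun e _ => ends_card G u e]
    simp [mul_comm]
  have h2 : ∑ e ∈ S, (univ.filter fun x : V => x ∈ e.1).card =
      ∑ x ∈ S.biUnion fun e => univ.filter fun x : V => x ∈ e.1, (S.filter fun e => x ∈ e.1).card := by
    have h3 : ∀ e ∈ S, (univ.filter fun x : V => x ∈ e.1).card =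
        ∑ x ∈ S.biUnion fun e => univ.filter fun x : V => x ∈ e.1, if x ∈ e.1 then 1 else 0 := by
      intro e he
      rw [← card_filter]
      congr 1
      ext x
      simp only [mem_filter, mem_univ, true_and, mem_biUnion]
      exact ⟨fun hx => ⟨⟨e, he, hx⟩, hx⟩, fun hx => hx.2⟩
    rw [sum_congr rfl h3, sum_comm]
    refine sum_congr rfl fun x _ => ?_
    rw [card_filter]
  have h4 : ∑ x ∈ S.biUnion fun e => univ.filter fun x : V => x ∈ e.1, (S.filter fun e => x ∈ e.1).card
      ≤ ∑ _x ∈ S.biUnion fun e => univ.filter fun x : V => x ∈ e.1, 2 := by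
    refine sum_le_sum fun x hx => ?_
    simp only [mem_biUnion, mem_filter, mem_univ, true_and] at hx
    obtain ⟨e, _, hxe⟩ := hx
    have hF := e.2
    simp only [link, mem_filter, mem_univ, true_and] at hF
    exact (deg_link G u x S).trans (h x (hF.2 x hxe))
  rw [sum_const, smul_eq_mul] at h4
  omega

theorem star (G : SimpleGraph V) (hG : Crit G) (u : V) (h : (nb G u).Nonempty) : ∃ v ∈ nb G u, 3 ≤ (cn G u v).card := by
  classical
  by_contra hcon
  push Not at hcon
  obtain ⟨f, hf, hfe⟩ := hall G u fun v hv => Nat.le_of_lt_succ (hcon v hv)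
  have hlt : del G u < G := by
    refine lt_of_le_of_ne (fun a b hab => hab.1) ?_
    intro heq
    obtain ⟨v, hv⟩ := h
    simp only [nb, mem_filter, mem_univ, true_and] at hv
    have : (del G u).Adj u v := by rw [heq]; exact hv
    exact this.2.1 rfl
  obtain ⟨c0, hs, ht⟩ := hG.2 _ hlt
  refine hG.1 ?_
  set g : V → Bool := fun v => if hh : ∃ w, ∃ e : {e // e ∈ link G u}, e.1 = s(v, w) ∧ f e = v
    then !(c0 v hh.choose) else false with hg
  have hgv : ∀ v w (e : {e // e ∈ link G u}), e.1 = s(v, w) → f e = v → g v = !(c0 v w) := by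
    intro v w e he hfv
    have hh : ∃ w, ∃ e : {e // e ∈ link G u}, e.1 = s(v, w) ∧ f e = v := ⟨w, e, he, hfv⟩
    have h1 : g v = !(c0 v hh.choose) := by
      simp only [hg]
      rw [dif_pos hh]
    obtain ⟨e', he', hfe'⟩ := hh.choose_spec
    have h2 : e' = e := hf (hfe'.trans hfv.symm)
    have h3 : hh.choose = w := by
      rw [h2, he] at he'
      exact (Sym2.congr_right.1 he').symm
    rw [h1, h3]
  have key : ∀ y z, G.Adj u y → G.Adj u z → G.Adj y z → ¬ (g y = c0 y z ∧ g z = c0 y z) := by
    intro y z huy huz hyz ⟨h1, h2⟩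
    have hmem : s(y, z) ∈ link G u := by
      simp only [link, mem_filter, mem_univ, true_and, nb, SimpleGraph.mem_edgeSet]
      refine ⟨hyz, ?_⟩
      intro x hx
      rcases Sym2.mem_iff.1 hx with rfl | rfl
      · exact huy
      · exact huz
    have h3 := hfe ⟨s(y, z), hmem⟩
    simp only [mem_filter, mem_univ, true_and] at h3
    have hsym : c0 y z = c0 z y := hs y z ⟨hyz, huy.ne', huz.ne'⟩
    rcases Sym2.mem_iff.1 h3 with h4 | h4
    · have := hgv y z ⟨s(y, z), hmem⟩ rfl h4
      rw [h1] at this
      cases hc : c0 y z <;> simp [hc] at this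
    · have := hgv z y ⟨s(y, z), hmem⟩ Sym2.eq_swap h4
      rw [h2, ← hsym] at this
      cases hc : c0 y z <;> simp [hc] at this
  refine ⟨fun x y => if x = u then g y else if y = u then g x else c0 x y, ?_, ?_⟩
  · intro x y hxy
    by_cases hx : x = u
    · subst hx
      have hy : y ≠ x := hxy.ne'
      simp [hy]
    · by_cases hy : y = u
      · subst hy
        simp [hx]
      · simp only [hx, hy, if_false]
        exact hs x y ⟨hxy, hx, hy⟩
  · intro x y z hxy hyz hxz ⟨h1, h2⟩
    by_cases hx : x = u
    · subst hx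
      have hy : y ≠ x := hxy.ne'
      have hz : z ≠ x := hxz.ne'
      simp only [hy, hz, if_false, if_true] at h1 h2
      exact key y z hxy hxz hyz ⟨h1, h2.symm⟩
    · by_cases hy : y = u
      · subst hy
        have hz : z ≠ y := hyz.ne'
        simp only [hx, hz, if_false, if_true] at h1 h2
        exact key x z hxy.symm hyz hxz ⟨h1.trans h2, h2⟩
      · by_cases hz : z = u
        · subst hz
          simp only [hx, hy, if_false, if_true] at h1 h2
          exact key x y hxz.symm hyz.symm hxy ⟨h2.symm.trans h1.symm, h1.symm⟩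
        · simp only [hx, hy, hz, if_false] at h1 h2
          exact ht x y z ⟨hxy, hx, hy⟩ ⟨hyz, hy, hz⟩ ⟨hxz, hx, hz⟩ ⟨h1, h2⟩

end Pool.Agent.H53.FV.B
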