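import Pool.Agent.H53.FV.ExtA
import Pool.Agent.H53.FV.ExtB

/-!
[H53 FV EXT] local consequences of criticality.
* `two`: an edge u v of a critical graph is in at least two triangles: otherwise delete it (SimpleGraph.deleteEdges), take a good
  colouring c0 of the rest; if w is the only common neighbour of u and v, colour u v differently from u w.
* `star`: a vertex u of a critical graph with a neighbour has a neighbour v with at least 3 common neighbours with u. Otherwise delete
  all edges at u, good colouring c0 of the rest. The link edges are the s(v,w), v, w neighbours of u, v w adjacent; every neighbour of u
  is in at most two link edges, so by Hall (Finset.all_card_le_biUnion_card_iff_exists_injective; 2 |F| = sum of the numbers of ends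
  <= 2 |union|) there is an injective choice of an end of every link edge. Colour u v, v the chosen end of the link edge v w,
  by the colour different from c0 v w, all other u v arbitrarily. Then the triangle u v w is not monochromatic.
-/

namespace Pool.Agent.H53.FV

open Finset Classical

variable {V : Type} [Fintype V]

theorem two (G : SimpleGraph V) (hG : Crit G) (u v : V) (h : G.Adj u v) : 2 ≤ (cn G u v).card :=
  A.two G hG u v h

theorem star (G : SimpleGraph V) (hG : Crit G) (u : V) (h : (nb G u).Nonempty) : ∃ v ∈ nb G u, 3 ≤ (cn G u v).card :=
  B.star G hG u h

end Pool.Agent.H53.FV
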