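import Pool.Agent.H53.FV.Def

/-!
[H53 FV KF] a critical graph without H_0 has no K_4.
Let K = {a,b,c,d} be a 4-clique. For x /= y in K let u, v be the other two elements: by `NoH` (edge u v) every common neighbour z of
x and y is u or v, so z in K. Delete the edges with both ends in K: proper subgraph, good colouring c0. Let P = {a,b}. Colour x y by
decide (x ∈ P ↔ y ∈ P) if x, y ∈ K, by c0 x y otherwise. A triangle with an edge inside K lies in K; its three vertices are not
all in P and not all in K \ P (two elements each), so it has an edge inside P or inside K \ P and an edge between them.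
A triangle without an edge inside K is a triangle of the subgraph.
-/

namespace Pool.Agent.H53.FV

open Finset Classical

variable {V : Type} [Fintype V]

omit [Fintype V] in
private theorem kz (G : SimpleGraph V) (hH : NoH G) (a b c d : V) (hab : G.Adj a b) (hac : G.Adj a c)
    (had : G.Adj a d) (hbc : G.Adj b c) (hbd : G.Adj b d) (hcd : G.Adj c d) (x y z : V)
    (hx : x = a ∨ x = b ∨ x = c ∨ x = d) (hy : y = a ∨ y = b ∨ y = c ∨ y = d) (hxy : x ≠ y)
    (h1 : G.Adj z x) (h2 : G.Adj z y) : z = a ∨ z = b ∨ z = c ∨ z = d := by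
  rcases hx with rfl | rfl | rfl | rfl <;> rcases hy with rfl | rfl | rfl | rfl
  · exact absurd rfl hxy
  · rcases hH c d x y z hcd hac had hbc hbd hxy h1 h2 with h | h <;> tauto
  · rcases hH b d x y z hbd hab had hbc.symm hcd hxy h1 h2 with h | h <;> tauto
  · rcases hH b c x y z hbc hab hac hbd.symm hcd.symm hxy h1 h2 with h | h <;> tauto
  · rcases hH c d x y z hcd hbc hbd hac had hxy h1 h2 with h | h <;> tauto
  · exact absurd rfl hxy
  · rcases hH a d x y z had hab.symm hbd hac.symm hcd hxy h1 h2 with h | h <;> tauto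
  · rcases hH a c x y z hac hab.symm hbc had.symm hcd.symm hxy h1 h2 with h | h <;> tauto
  · rcases hH b d x y z hbd hbc.symm hcd hab had hxy h1 h2 with h | h <;> tauto
  · rcases hH a d x y z had hac.symm hcd hab.symm hbd hxy h1 h2 with h | h <;> tauto
  · exact absurd rfl hxy
  · rcases hH a b x y z hab hac.symm hbc.symm had.symm hbd.symm hxy h1 h2 with h | h <;> tauto
  · rcases hH b c x y z hbc hbd.symm hcd.symm hab hac hxy h1 h2 with h | h <;> tauto
  · rcases hH a c x y z hac had.symm hcd.symm hab.symm hbc hxy h1 h2 with h | h <;> tauto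
  · rcases hH a b x y z hab had.symm hbd.symm hac.symm hbc.symm hxy h1 h2 with h | h <;> tauto
  · exact absurd rfl hxy

private theorem two {α : Type} {u v x y z : α} (hx : x = u ∨ x = v) (hy : y = u ∨ y = v) (hz : z = u ∨ z = v)
    (h1 : x ≠ y) (h2 : y ≠ z) (h3 : x ≠ z) : False := by
  rcases hx with rfl | rfl <;> rcases hy with rfl | rfl <;> rcases hz with rfl | rfl <;>
    first
    | exact h1 rfl
    | exact h2 rfl
    | exact h3 rfl

private theorem prop3 {p q r : Prop} (h1 : (p ↔ q) ↔ (q ↔ r)) (h2 : (q ↔ r) ↔ (p ↔ r)) :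
    (p ∧ q ∧ r) ∨ (¬ p ∧ ¬ q ∧ ¬ r) := by
  by_cases hp : p <;> by_cases hq : q <;> by_cases hr : r <;> simp_all

theorem k4 (G : SimpleGraph V) (hG : Crit G) (hH : NoH G) (a b c d : V) (hab : G.Adj a b) (hac : G.Adj a c) (had : G.Adj a d)
    (hbc : G.Adj b c) (hbd : G.Adj b d) (hcd : G.Adj c d) : False := by
  obtain ⟨hno, hcrit⟩ := hG
  have hK := kz G hH a b c d hab hac had hbc hbd hcd
  set K : V → Prop := fun x => x = a ∨ x = b ∨ x = c ∨ x = d with hKdef
  set P : V → Prop := fun x => x = a ∨ x = b with hPdef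
  have hPK : ∀ x, K x → ¬ P x → x = c ∨ x = d := by
    intro x h1 h2
    rcases h1 with h | h | h | h
    · exact absurd (Or.inl h) h2
    · exact absurd (Or.inr h) h2
    · exact Or.inl h
    · exact Or.inr h
  let G' : SimpleGraph V :=
    { Adj := fun x y => G.Adj x y ∧ ¬ (K x ∧ K y)
      symm := ⟨fun x y h => ⟨h.1.symm, fun h' => h.2 ⟨h'.2, h'.1⟩⟩⟩
      loopless := ⟨fun x h => G.loopless.irrefl x h.1⟩ }
  have hlt : G' < G := by
    refine lt_of_le_of_ne (fun x y h => h.1) ?_
    intro h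
    have h1 : G'.Adj a b := by
      rw [h]
      exact hab
    exact h1.2 ⟨Or.inl rfl, Or.inr (Or.inl rfl)⟩
  obtain ⟨c0, hs0, ht0⟩ := hcrit G' hlt
  apply hno
  refine ⟨fun x y => if K x ∧ K y then decide (P x ↔ P y) else c0 x y, ?_, ?_⟩
  · intro x y hxy
    by_cases h : K x ∧ K y
    · have h' : K y ∧ K x := ⟨h.2, h.1⟩
      simp only [if_pos h, if_pos h']
      exact decide_eq_decide.2 ⟨fun h => h.symm, fun h => h.symm⟩
    · have h' : ¬ (K y ∧ K x) := fun h' => h ⟨h'.2, h'.1⟩
      simp only [if_neg h, if_neg h']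
      exact hs0 x y ⟨hxy, h⟩
  · intro x y z hxy hyz hxz
    by_cases hall : K x ∧ K y ∧ K z
    · obtain ⟨kx, ky, kzz⟩ := hall
      simp only [if_pos (And.intro kx ky), if_pos (And.intro ky kzz), if_pos (And.intro kx kzz)]
      rintro ⟨e1, e2⟩
      have e1' : (P x ↔ P y) ↔ (P y ↔ P z) := decide_eq_decide.1 e1
      have e2' : (P y ↔ P z) ↔ (P x ↔ P z) := decide_eq_decide.1 e2
      rcases prop3 e1' e2' with ⟨px, py, pz⟩ | ⟨px, py, pz⟩
      · exact two px py pz hxy.ne hyz.ne hxz.ne
      · exact two (hPK x kx px) (hPK y ky py) (hPK z kzz pz) hxy.ne hyz.ne hxz.ne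
    · have h1 : ¬ (K x ∧ K y) := fun h =>
        hall ⟨h.1, h.2, hK x y z h.1 h.2 hxy.ne hxz.symm hyz.symm⟩
      have h2 : ¬ (K y ∧ K z) := fun h =>
        hall ⟨hK y z x h.1 h.2 hyz.ne hxy hxz, h.1, h.2⟩
      have h3 : ¬ (K x ∧ K z) := fun h =>
        hall ⟨h.1, hK x z y h.1 h.2 hxz.ne hxy.symm hyz, h.2⟩
      simp only [if_neg h1, if_neg h2, if_neg h3]
      exact ht0 x y z ⟨hxy, h1⟩ ⟨hyz, h2⟩ ⟨hxz, h3⟩

end Pool.Agent.H53.FV
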