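import Pool.Agent.H53.FV.Ker
import Pool.Agent.H53.FV.Ext
import Pool.Agent.H53.FV.KF
import Pool.Agent.H53.FV.CntA
import Pool.Agent.H53.FV.CntB

/-!
[H53 FV CNT] counting. G critical without H_0; d = card (nb G u), T = tri G u, S = opp G u.
* `loc`: S + T <= d (d - 1): for x /= y in nb G u: [x y adjacent] + #{v in nb G u : v common neighbour of x, y} <= 1 (`k4`, `NoH`).
* `even`: T is even.
* `tang`: S >= 2 k T - k (k+1) d for every k: (c - k)(c - k - 1) >= 0 for every integer c = card (cn G u v).
* `glob`: sum over u of S + 2 * sum of d <= 2 * (card U * (card U - 1)), U the vertices with a neighbour: for x /= y: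
  #{(u,v) : u v adjacent, both common neighbours of x and y} + 2 [x y adjacent] <= 2 (`NoH`, `k4`).
-/

namespace Pool.Agent.H53.FV

open Finset Classical

variable {V : Type} [Fintype V]

theorem loc (G : SimpleGraph V) (hG : Crit G) (hH : NoH G) (u : V) :
    opp G u + tri G u + (nb G u).card ≤ (nb G u).card * (nb G u).card :=
  A.loc G hG hH u

theorem even (G : SimpleGraph V) (u : V) : Even (tri G u) :=
  A.even G u

theorem tang (G : SimpleGraph V) (u : V) (k : ℕ) :
    2 * k * tri G u ≤ opp G u + k * (k + 1) * (nb G u).card :=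
  A.tang G u k

theorem glob (G : SimpleGraph V) (hG : Crit G) (hH : NoH G) :
    ∑ u, opp G u + 2 * ∑ u, (nb G u).card + 2 * (univ.filter fun u => (nb G u).Nonempty).card ≤
      2 * ((univ.filter fun u => (nb G u).Nonempty).card * (univ.filter fun u => (nb G u).Nonempty).card) :=
  B.glob G hG hH

end Pool.Agent.H53.FV
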