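import Mathlib

/-!
[H53 FV] MP_eb1b1c_co: a graph without H_0 in which every 2-colouring of the edges has a monochromatic triangle has at least 41
vertices and a vertex of degree at least 10. Definitions.
-/

namespace Pool.Agent.H53.FV

open Finset Classical

variable {V : Type}

/-- the colouring `c` of the edges of `G` has no monochromatic triangle -/
def Good (G : SimpleGraph V) (c : V → V → Bool) : Prop :=
  (∀ x y, G.Adj x y → c x y = c y x) ∧
    ∀ x y z, G.Adj x y → G.Adj y z → G.Adj x z → ¬ (c x y = c y z ∧ c y z = c x z)

/-- edge-critical: no colouring is good, but every proper subgraph has a good colouring -/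
def Crit (G : SimpleGraph V) : Prop := (¬ ∃ c, Good G c) ∧ ∀ G' < G, ∃ c, Good G' c

/-- no `H_0`: two common neighbours `x`, `y` of the ends of an edge `u v` have no other common neighbour -/
def NoH (G : SimpleGraph V) : Prop := ∀ u v x y z, G.Adj u v → G.Adj x u → G.Adj x v → G.Adj y u → G.Adj y v →
  x ≠ y → G.Adj z x → G.Adj z y → z = u ∨ z = v

variable [Fintype V]

/-- neighbours -/
noncomputable def nb (G : SimpleGraph V) (u : V) : Finset V := univ.filter fun v => G.Adj u v

/-- common neighbours -/
noncomputable def cn (G : SimpleGraph V) (u v : V) : Finset V := univ.filter fun w => G.Adj u w ∧ G.Adj v w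

/-- twice the number of triangles at `u` -/
noncomputable def tri (G : SimpleGraph V) (u : V) : ℕ := ∑ v ∈ nb G u, (cn G u v).card

/-- number of the `(v, x, y)` with `v` a neighbour of `u`, `x /= y` common neighbours of `u` and `v` -/
noncomputable def opp (G : SimpleGraph V) (u : V) : ℕ := ∑ v ∈ nb G u, (cn G u v).offDiag.card

end Pool.Agent.H53.FV
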