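import Pool.Agent.H53.FV.Cnt

/-!
[H53 FV DG8] all degrees of a critical graph without H_0 are at least 8 (0 or at least 8).
Let d = 7 (`h7`). By `star` some neighbour p of u has three common neighbours q1, q2, q3 with u. By `two` q_i has another common neighbour
r_i /= p with u. No two of the q's are adjacent (K_4 u, p, q_i, q_j: `k4`); r_i is not a q, and the r_i are different (if r_i = r_j =: r
then q_i, q_j are common neighbours of p and r, but also u is one: NoH with the edge u q_i ... : p and r have the common neighbours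
u, q_i (an edge) and q_j, so q_j = u or q_j = q_i by `NoH G u q_i p r q_j`). So nb G u = {p, q1, q2, q3, r1, r2, r3}
(7 elements). p is adjacent to no r_i (else r_i, q_i, p, u is a K_4). q_i r_j are adjacent only for i = j (C_4 p q_i r_j q_j: NoH G u q_i p r_j q_j).
r1, r2, r3 are not pairwise adjacent (K_4); every r_i has a neighbour among the r's by `two`. So there are exactly two adjacent
pairs among the r's; by symmetry r1 r2 and r2 r3 (three cases).
Delete the edges at u; good colouring c0 of the rest (hG.2, as in ExtB.star). Let b be a colour such that at most one of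
c0 p q1, c0 p q2, c0 p q3 is b. Colour u p by b. The other six u v are coloured one after the other along the tree q1 r1 r2 r3 q3, r2 q2, which is the graph
induced on nb G u without p, starting with the q_i with c0 p q_i = b (if there is one; otherwise with q1): u q_i gets the
colour different from b; every next vertex w, whose tree parent is v, gets u w of a colour different from c0 v w.
So no triangle u v w is monochromatic. (With the eight colours as variables this is: for all eight Booleans there are seven Booleans ...,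
which `decide` proves.)
-/

namespace Pool.Agent.H53.FV

private theorem col8 (a1 a2 a3 b1 b2 b3 e f : Bool) : ∃ gp g1 g2 g3 h1 h2 h3 : Bool,
    (gp = !a1 ∨ g1 = !a1) ∧ (gp = !a2 ∨ g2 = !a2) ∧ (gp = !a3 ∨ g3 = !a3) ∧
    (g1 = !b1 ∨ h1 = !b1) ∧ (g2 = !b2 ∨ h2 = !b2) ∧ (g3 = !b3 ∨ h3 = !b3) ∧
    (h1 = !e ∨ h2 = !e) ∧ (h2 = !f ∨ h3 = !f) := by
  have h : a2 = a3 ∨ a1 = a3 ∨ a1 = a2 := by
    cases a1 <;> cases a2 <;> cases a3 <;> simp
  rcases h with rfl | rfl | rfl
  · exact ⟨!a2, !a1, !b2, !b3, !b1, !e, !f, Or.inr rfl, Or.inl rfl, Or.inl rfl, Or.inr rfl,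
      Or.inl rfl, Or.inl rfl, Or.inr rfl, Or.inr rfl⟩
  · exact ⟨!a1, !b1, !a2, !b3, !e, !b2, !f, Or.inl rfl, Or.inr rfl, Or.inl rfl, Or.inl rfl,
      Or.inr rfl, Or.inl rfl, Or.inl rfl, Or.inr rfl⟩
  · exact ⟨!a1, !b1, !b2, !a3, !e, !f, !b3, Or.inl rfl, Or.inl rfl, Or.inr rfl, Or.inl rfl,
      Or.inl rfl, Or.inr rfl, Or.inl rfl, Or.inl rfl⟩

open Finset Classical

variable {V : Type} [Fintype V]

/-- extension of a good colouring to the edges at `u` -/
private theorem extend8 (G : SimpleGraph V) (hG : Crit G) (u v0 : V) (hv0 : G.Adj u v0)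
    (hcol : ∀ c0 : V → V → Bool, (∀ x y, G.Adj x y → x ≠ u → y ≠ u → c0 x y = c0 y x) →
      ∃ g : V → Bool, ∀ y z, G.Adj u y → G.Adj u z → G.Adj y z →
        ¬ (g y = c0 y z ∧ g z = c0 y z)) : False := by
  have hlt : B.del G u < G := by
    refine lt_of_le_of_ne (fun a b hab => hab.1) ?_
    intro heq
    have : (B.del G u).Adj u v0 := by rw [heq]; exact hv0
    exact this.2.1 rfl
  obtain ⟨c0, hs, ht⟩ := hG.2 _ hlt
  refine hG.1 ?_
  obtain ⟨g, key⟩ := hcol c0 fun x y h h1 h2 => hs x y ⟨h, h1, h2⟩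
  refine ⟨fun x y => if x = u then g y else if y = u then g x else c0 x y, ?_, ?_⟩
  · intro x y hxy
    by_cases hx : x = u
    · subst hx
      have hy : y ≠ x := hxy.ne'
      simp [hy]
    · by_cases hy : y = u
      · subst hy
        simp [hx]
      · simp only [hx, hy, if_false]
        exact hs x y ⟨hxy, hx, hy⟩
  · intro x y z hxy hyz hxz ⟨h1, h2⟩
    by_cases hx : x = u
    · subst hx
      have hy : y ≠ x := hxy.ne'
      have hz : z ≠ x := hxz.ne'
      simp only [hy, hz, if_false, if_true] at h1 h2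
      exact key y z hxy hxz hyz ⟨h1, h2.symm⟩
    · by_cases hy : y = u
      · subst hy
        have hz : z ≠ y := hyz.ne'
        simp only [hx, hz, if_false, if_true] at h1 h2
        exact key x z hxy.symm hyz hxz ⟨h1.trans h2, h2⟩
      · by_cases hz : z = u
        · subst hz
          simp only [hx, hy, if_false, if_true] at h1 h2
          exact key x y hxz.symm hyz.symm hxy ⟨h2.symm.trans h1.symm, h1.symm⟩
        · simp only [hx, hy, hz, if_false] at h1 h2
          exact ht x y z ⟨hxy, hx, hy⟩ ⟨hyz, hy, hz⟩ ⟨hxz, hx, hz⟩ ⟨h1, h2⟩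

private theorem final8 (G : SimpleGraph V) (hG : Crit G) (u p : V) (q r : Fin 3 → V)
    (hup : G.Adj u p) (hq : ∀ i, G.Adj u (q i)) (hpq : ∀ i, G.Adj p (q i))
    (hr : ∀ i, G.Adj u (r i))
    (hpr : ∀ i, ¬ G.Adj p (r i)) (hqq : ∀ i j, ¬ G.Adj (q i) (q j))
    (hqi : ∀ i j, q i = q j → i = j) (hri : ∀ i j, r i = r j → i = j)
    (hqr : ∀ i j, G.Adj (q i) (r j) → i = j) (hpr' : ∀ i, p ≠ r i)
    (hcov : ∀ x, G.Adj u x → x = p ∨ (∃ i, x = q i) ∨ ∃ i, x = r i)
    (h02 : ¬ G.Adj (r 0) (r 2)) : False := by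
  refine extend8 G hG u p hup fun c0 hs => ?_
  obtain ⟨gp, g1, g2, g3, h1, h2, h3, e1, e2, e3, e4, e5, e6, e7, e8⟩ :=
    col8 (c0 p (q 0)) (c0 p (q 1)) (c0 p (q 2)) (c0 (q 0) (r 0)) (c0 (q 1) (r 1))
      (c0 (q 2) (r 2)) (c0 (r 0) (r 1)) (c0 (r 1) (r 2))
  have hpqne : ∀ i, q i ≠ p := fun i => (hpq i).ne'
  have hqrne : ∀ i j, r j ≠ q i := by
    intro i j h
    exact hpr j (by rw [h]; exact hpq i)
  obtain ⟨gq, hgq0, hgq1, hgq2⟩ : ∃ gq : Fin 3 → Bool, gq 0 = g1 ∧ gq 1 = g2 ∧ gq 2 = g3 :=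
    ⟨![g1, g2, g3], rfl, rfl, rfl⟩
  obtain ⟨gr, hgr0, hgr1, hgr2⟩ : ∃ gr : Fin 3 → Bool, gr 0 = h1 ∧ gr 1 = h2 ∧ gr 2 = h3 :=
    ⟨![h1, h2, h3], rfl, rfl, rfl⟩
  obtain ⟨g, hg⟩ : ∃ g : V → Bool, g = fun x => if x = p then gp else
      if h : ∃ i, x = q i then gq h.choose else if h : ∃ i, x = r i then gr h.choose else false :=
    ⟨_, rfl⟩
  have vp : g p = gp := by rw [hg]; exact if_pos rfl
  have vq : ∀ i, g (q i) = gq i := by
    intro i
    have hex : ∃ j, q i = q j := ⟨i, rfl⟩
    have : g (q i) = gq hex.choose := by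
      rw [hg]
      simp only
      rw [if_neg (hpqne i), dif_pos hex]
    rw [this, ← hqi i _ hex.choose_spec]
  have vr : ∀ i, g (r i) = gr i := by
    intro i
    have hex : ∃ j, r i = r j := ⟨i, rfl⟩
    have hnq : ¬ ∃ j, r i = q j := by
      rintro ⟨j, hj⟩
      exact hqrne j i hj
    have : g (r i) = gr hex.choose := by
      rw [hg]
      simp only
      rw [if_neg (hpr' i).symm, dif_neg hnq, dif_pos hex]
    rw [this, ← hri i _ hex.choose_spec]
  have bad : ∀ {x y c : Bool}, (x = !c ∨ y = !c) → ¬ (x = c ∧ y = c) := by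
    intro x y c h
    rintro ⟨rfl, rfl⟩
    rcases h with h | h <;> cases y <;> simp at h
  -- the eight edges
  have kpq : ∀ i, ¬ (g p = c0 p (q i) ∧ g (q i) = c0 p (q i)) := by
    intro i
    rw [vp, vq]
    fin_cases i
    · exact bad (by rw [← hgq0] at e1; exact e1)
    · exact bad (by rw [← hgq1] at e2; exact e2)
    · exact bad (by rw [← hgq2] at e3; exact e3)
  have kqr : ∀ i, ¬ (g (q i) = c0 (q i) (r i) ∧ g (r i) = c0 (q i) (r i)) := by
    intro i
    rw [vq, vr]
    fin_cases i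
    · exact bad (by rw [← hgq0, ← hgr0] at e4; exact e4)
    · exact bad (by rw [← hgq1, ← hgr1] at e5; exact e5)
    · exact bad (by rw [← hgq2, ← hgr2] at e6; exact e6)
  have k01 : ¬ (g (r 0) = c0 (r 0) (r 1) ∧ g (r 1) = c0 (r 0) (r 1)) := by
    rw [vr, vr, hgr0, hgr1]
    exact bad e7
  have k12 : ¬ (g (r 1) = c0 (r 1) (r 2) ∧ g (r 2) = c0 (r 1) (r 2)) := by
    rw [vr, vr, hgr1, hgr2]
    exact bad e8
  have symk : ∀ y z, G.Adj u y → G.Adj u z → G.Adj y z →
      ¬ (g y = c0 y z ∧ g z = c0 y z) → ¬ (g z = c0 z y ∧ g y = c0 z y) := by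
    intro y z hy hz hyz h
    rw [← hs y z hyz hy.ne' hz.ne']
    exact fun h' => h ⟨h'.2, h'.1⟩
  refine ⟨g, fun y z huy huz hyz => ?_⟩
  rcases hcov y huy with rfl | ⟨i, rfl⟩ | ⟨i, rfl⟩
  · rcases hcov z huz with rfl | ⟨j, rfl⟩ | ⟨j, rfl⟩
    · exact absurd rfl hyz.ne
    · exact kpq j
    · exact absurd hyz (hpr j)
  · rcases hcov z huz with rfl | ⟨j, rfl⟩ | ⟨j, rfl⟩
    · exact symk _ _ huz huy hyz.symm (kpq i)
    · exact absurd hyz (hqq i j)
    · have := hqr i j hyz
      subst this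
      exact kqr i
  · rcases hcov z huz with rfl | ⟨j, rfl⟩ | ⟨j, rfl⟩
    · exact absurd hyz.symm (hpr i)
    · have := hqr j i hyz.symm
      subst this
      exact symk _ _ huz huy hyz.symm (kqr j)
    · fin_cases i <;> fin_cases j
      · exact absurd rfl hyz.ne
      · exact k01
      · exact absurd hyz h02
      · exact symk _ _ huz huy hyz.symm k01
      · exact absurd rfl hyz.ne
      · exact k12
      · exact absurd hyz.symm h02
      · exact symk _ _ huz huy hyz.symm k12
      · exact absurd rfl hyz.ne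

theorem ne7 (G : SimpleGraph V) (hG : Crit G) (hH : NoH G) (u : V) (h7 : (nb G u).card = 7) : False := by
  have hne : (nb G u).Nonempty := by
    rw [← Finset.card_pos]; omega
  obtain ⟨p, hp, h3⟩ := star G hG u hne
  obtain ⟨Tq, hTq, hTc⟩ := Finset.exists_subset_card_eq h3
  obtain ⟨x, y, z, hxy, hxz, hyz, rfl⟩ := Finset.card_eq_three.mp hTc
  have hnb : ∀ v, v ∈ nb G u ↔ G.Adj u v := by intro v; simp [nb]
  have hcn : ∀ a b, b ∈ cn G u a ↔ G.Adj u b ∧ G.Adj a b := by intro a b; simp [cn]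
  have hup : G.Adj u p := (hnb p).mp hp
  obtain ⟨q, hq0⟩ : ∃ q : Fin 3 → V, q = ![x, y, z] := ⟨_, rfl⟩
  have hqm : ∀ i, G.Adj u (q i) ∧ G.Adj p (q i) := by
    intro i
    rw [← hcn]
    apply hTq
    rw [hq0]
    fin_cases i <;> simp
  have hqi : ∀ i j, q i = q j → i = j := by
    intro i j h
    rw [hq0] at h
    fin_cases i <;> fin_cases j <;> simp_all [eq_comm]
  have hrex : ∀ i, ∃ b, (G.Adj u b ∧ G.Adj (q i) b) ∧ b ≠ p := by
    intro i
    obtain ⟨b, hb, hbp⟩ := Finset.exists_mem_ne (two G hG u (q i) (hqm i).1) p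
    exact ⟨b, (hcn _ _).mp hb, hbp⟩
  choose r hr hrp using hrex
  have hqq : ∀ i j, ¬ G.Adj (q i) (q j) := by
    intro i j h
    exact k4 G hG hH u p (q i) (q j) hup (hqm i).1 (hqm j).1 (hqm i).2 (hqm j).2 h
  have hpr : ∀ i, ¬ G.Adj p (r i) := by
    intro i h
    exact k4 G hG hH u p (q i) (r i) hup (hqm i).1 (hr i).1 (hqm i).2 h (hr i).2
  have hqr : ∀ i j, G.Adj (q i) (r j) → i = j := by
    intro i j h
    rcases hH u (q j) p (r j) (q i) (hqm j).1 hup.symm (hqm j).2 (hr j).1.symm (hr j).2.symm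
      (hrp j).symm (hqm i).2.symm h with h' | h'
    · exact absurd h' (hqm i).1.ne'
    · exact hqi i j h'
  have hri : ∀ i j, r i = r j → i = j := by
    intro i j h
    exact hqr i j (by rw [← h]; exact (hr i).2)
  have hqrne : ∀ i j, q i ≠ r j := by
    intro i j h
    exact hpr j (by rw [← h]; exact (hqm i).2)
  -- the neighbourhood
  have hcov : ∀ w, G.Adj u w → w = p ∨ (∃ i, w = q i) ∨ ∃ i, w = r i := by
    have hsub : insert p (univ.image q ∪ univ.image r) ⊆ nb G u := by
      intro w hw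
      rw [Finset.mem_insert, Finset.mem_union, Finset.mem_image, Finset.mem_image] at hw
      rw [hnb]
      rcases hw with rfl | ⟨i, -, rfl⟩ | ⟨i, -, rfl⟩
      · exact hup
      · exact (hqm i).1
      · exact (hr i).1
    have hcard : (insert p (univ.image q ∪ univ.image r)).card = 7 := by
      rw [Finset.card_insert_of_notMem, Finset.card_union_of_disjoint,
        Finset.card_image_of_injective _ (fun i j h => hqi i j h),
        Finset.card_image_of_injective _ (fun i j h => hri i j h)]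
      · simp
      · rw [Finset.disjoint_left]
        intro w h1 h2
        rw [Finset.mem_image] at h1 h2
        obtain ⟨i, -, rfl⟩ := h1
        obtain ⟨j, -, h⟩ := h2
        exact hqrne i j h.symm
      · rw [Finset.mem_union, Finset.mem_image, Finset.mem_image]
        rintro (⟨i, -, h⟩ | ⟨i, -, h⟩)
        · exact (hqm i).2.ne' h
        · exact hrp i h
    have heq := Finset.eq_of_subset_of_card_le hsub (by rw [hcard, h7])
    intro w hw
    rw [← hnb, ← heq, Finset.mem_insert, Finset.mem_union, Finset.mem_image, Finset.mem_image] at hw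
    rcases hw with h | ⟨i, -, h⟩ | ⟨i, -, h⟩
    · exact Or.inl h
    · exact Or.inr (Or.inl ⟨i, h.symm⟩)
    · exact Or.inr (Or.inr ⟨i, h.symm⟩)
  -- every `r i` has a neighbour among the `r j`
  have hrr : ∀ i, ∃ j, G.Adj (r i) (r j) := by
    intro i
    obtain ⟨b, hb, hbq⟩ := Finset.exists_mem_ne (two G hG u (r i) (hr i).1) (q i)
    rw [hcn] at hb
    rcases hcov b hb.1 with rfl | ⟨j, rfl⟩ | ⟨j, rfl⟩
    · exact absurd hb.2.symm (hpr i)
    · have := hqr j i hb.2.symm
      rw [this] at hbq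
      exact absurd rfl hbq
    · exact ⟨j, hb.2⟩
  have hfin : ∀ σ : Equiv.Perm (Fin 3), ¬ G.Adj (r (σ 0)) (r (σ 2)) → False := by
    intro σ h02
    refine final8 G hG u p (fun i => q (σ i)) (fun i => r (σ i)) hup (fun i => (hqm _).1)
      (fun i => (hqm _).2) (fun i => (hr _).1) (fun i => hpr _) (fun i j => hqq _ _)
      (fun i j h => σ.injective (hqi _ _ h)) (fun i j h => σ.injective (hri _ _ h))
      (fun i j h => σ.injective (hqr _ _ h)) (fun i => (hrp _).symm) ?_ h02
    intro w hw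
    rcases hcov w hw with h | ⟨i, h⟩ | ⟨i, h⟩
    · exact Or.inl h
    · exact Or.inr (Or.inl ⟨σ.symm i, by rw [Equiv.apply_symm_apply]; exact h⟩)
    · exact Or.inr (Or.inr ⟨σ.symm i, by rw [Equiv.apply_symm_apply]; exact h⟩)
  by_cases a02 : G.Adj (r 0) (r 2)
  · by_cases a01 : G.Adj (r 0) (r 1)
    · by_cases a12 : G.Adj (r 1) (r 2)
      · exact k4 G hG hH u (r 0) (r 1) (r 2) (hr 0).1 (hr 1).1 (hr 2).1 a01 a02 a12
      · -- centre 0: the pair 1, 2 is not adjacent
        refine hfin (Equiv.swap 0 1) ?_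
        have e1 : (Equiv.swap (0 : Fin 3) 1) 0 = 1 := by decide
        have e2 : (Equiv.swap (0 : Fin 3) 1) 2 = 2 := by decide
        rw [e1, e2]
        exact a12
    · -- the pair 0, 1 is not adjacent
      refine hfin (Equiv.swap 1 2) ?_
      have e1 : (Equiv.swap (1 : Fin 3) 2) 0 = 0 := by decide
      have e2 : (Equiv.swap (1 : Fin 3) 2) 2 = 1 := by decide
      rw [e1, e2]
      exact a01
  · exact hfin 1 a02

end Pool.Agent.H53.FV
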