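import Pool.Agent.H53.FV.Def

/-!
[H53 FV EXTA] every edge of a critical graph has at least two common neighbours.
-/

namespace Pool.Agent.H53.FV.A

open Finset Classical

variable {V : Type} [Fintype V]

/-- Every edge of a critical graph is in at least two triangles. -/
theorem two (G : SimpleGraph V) (hG : Crit G) (u v : V) (h : G.Adj u v) : 2 ≤ (cn G u v).card := by
  by_contra hcon
  have hcard : (cn G u v).card ≤ 1 := by omega
  obtain ⟨hno, hall⟩ := hG
  have huv : u ≠ v := h.ne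
  have hlt : G.deleteEdges {s(u, v)} < G := by
    refine lt_of_le_of_ne (SimpleGraph.deleteEdges_le _) fun he => ?_
    have h1 : (G.deleteEdges {s(u, v)}).Adj u v := by
      rw [he]
      exact h
    rw [SimpleGraph.deleteEdges_adj] at h1
    exact h1.2 rfl
  obtain ⟨c0, hsym, htri⟩ := hall _ hlt
  have hadj : ∀ x y, (G.deleteEdges {s(u, v)}).Adj x y ↔ G.Adj x y ∧ s(x, y) ≠ s(u, v) := by
    intro x y
    rw [SimpleGraph.deleteEdges_adj]
    simp
  obtain ⟨b, hb⟩ : ∃ b : Bool, ∀ w, G.Adj u w → G.Adj v w → c0 u w ≠ b := by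
    by_cases hex : ∃ w, G.Adj u w ∧ G.Adj v w
    · obtain ⟨w, hw⟩ := hex
      refine ⟨!(c0 u w), fun w' h1 h2 => ?_⟩
      have hw1 : w ∈ cn G u v := by
        unfold cn
        simp [hw]
      have hw2 : w' ∈ cn G u v := by
        unfold cn
        simp [h1, h2]
      rw [Finset.card_le_one.1 hcard w' hw2 w hw1]
      simp
    · exact ⟨true, fun w h1 h2 => absurd ⟨w, h1, h2⟩ hex⟩
  apply hno
  refine ⟨fun x y => if s(x, y) = s(u, v) then b else c0 x y, fun x y hxy => ?_, ?_⟩
  · have he : s(x, y) = s(y, x) := Sym2.eq_swap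
    simp only [he]
    split_ifs with h1
    · rfl
    · refine hsym x y ((hadj x y).2 ⟨hxy, ?_⟩)
      rw [he]
      exact h1
  · intro x y z hxy hyz hxz
    have hside : ∀ w, G.Adj u w → w ≠ v → c0 u w = c0 w u := fun w h1 h2 => by
      refine hsym u w ((hadj u w).2 ⟨h1, fun h3 => ?_⟩)
      rcases Sym2.eq_iff.1 h3 with ⟨_, h4⟩ | ⟨h4, _⟩
      · exact h2 h4
      · exact huv h4
    have hn1 : ∀ w, w ≠ v → ¬ s(u, w) = s(u, v) := by
      intro w h2 h3
      rcases Sym2.eq_iff.1 h3 with ⟨_, h4⟩ | ⟨h4, _⟩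
      · exact h2 h4
      · exact huv h4
    have hn2 : ∀ w, w ≠ v → ¬ s(w, u) = s(u, v) := by
      intro w h2 h3
      rw [Sym2.eq_swap] at h3
      exact hn1 w h2 h3
    show ¬ ((if s(x, y) = s(u, v) then b else c0 x y) = (if s(y, z) = s(u, v) then b else c0 y z) ∧
      (if s(y, z) = s(u, v) then b else c0 y z) = if s(x, z) = s(u, v) then b else c0 x z)
    by_cases e1 : s(x, y) = s(u, v)
    · rcases Sym2.eq_iff.1 e1 with ⟨hx, hy⟩ | ⟨hx, hy⟩
      · subst hx hy
        have hz : z ≠ y := hyz.ne'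
        rw [if_pos rfl, if_neg (hn1 z hz)]
        rintro ⟨h1, h2⟩
        exact hb z hxz hyz (h2.symm.trans h1.symm)
      · subst hx hy
        have hz : z ≠ x := hxz.ne'
        rw [if_pos Sym2.eq_swap, if_neg (hn1 z hz)]
        rintro ⟨h1, h2⟩
        exact hb z hyz hxz h1.symm
    by_cases e2 : s(y, z) = s(u, v)
    · rcases Sym2.eq_iff.1 e2 with ⟨hy, hz⟩ | ⟨hy, hz⟩
      · subst hy hz
        have hx : x ≠ z := hxz.ne
        rw [if_neg (hn2 x hx), if_pos rfl]
        rintro ⟨h1, h2⟩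
        refine hb x hxy.symm hxz.symm ?_
        rw [hside x hxy.symm hx]
        exact h1
      · subst hy hz
        have hx : x ≠ y := hxy.ne
        rw [if_neg e1, if_pos Sym2.eq_swap, if_neg (hn2 x hx)]
        rintro ⟨h1, h2⟩
        refine hb x hxz.symm hxy.symm ?_
        rw [hside x hxz.symm hx]
        exact h2.symm
    by_cases e3 : s(x, z) = s(u, v)
    · rcases Sym2.eq_iff.1 e3 with ⟨hx, hz⟩ | ⟨hx, hz⟩
      · subst hx hz
        rw [if_neg e1, if_neg e2, if_pos rfl]
        rintro ⟨h1, h2⟩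
        exact hb y hxy hyz.symm (h1.trans h2)
      · subst hx hz
        rw [if_neg e1, if_neg e2, if_pos Sym2.eq_swap]
        rintro ⟨h1, h2⟩
        refine hb y hyz.symm hxy ?_
        rw [hside y hyz.symm hxy.ne']
        exact h2
    rw [if_neg e1, if_neg e2, if_neg e3]
    exact htri x y z ((hadj x y).2 ⟨hxy, e1⟩) ((hadj y z).2 ⟨hyz, e2⟩) ((hadj x z).2 ⟨hxz, e3⟩)

end Pool.Agent.H53.FV.A
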