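import Pool.Agent.H53.FV.Cnt

/-!
[H53 FV FIN] the theorem
-/

namespace Pool.Agent.H53.FV

open Finset Classical

variable {V : Type} [Fintype V]

private theorem ar7 (d T S : ℕ) (h1 : 2 * d < T) (he : Even T) (h2 : 4 * T ≤ S + 6 * d) (h3 : S + T + d ≤ d * d) :
    7 ≤ d := by
  by_contra hcon
  obtain ⟨r, rfl⟩ := he
  have h4 : d ≤ 6 := by omega
  interval_cases d <;> omega

private theorem ar80 (d T S : ℕ) (hd : 7 ≤ d) (h2 : 4 * T ≤ S + 6 * d) (h3 : 6 * T ≤ S + 12 * d) (h4 : 8 * T ≤ S + 20 * d)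
    (h5 : 10 * T ≤ S + 30 * d) (h : S + T + d ≤ d * d) : 80 + 9 * T ≤ 29 * d + S := by
  rcases lt_or_ge d 20 with h6 | h6
  · interval_cases d <;> omega
  · omega

private theorem ar9 (d T S : ℕ) (hd : 1 ≤ d) (hd9 : d ≤ 9) (h2 : 4 * T ≤ S + 6 * d) (h : S + T + d ≤ d * d) : T < 3 * d := by
  interval_cases d <;> omega

private theorem ar185 (d T S : ℕ) (hd : 7 ≤ d) (he : Even T) (h2 : 4 * T ≤ S + 6 * d) (h3 : 6 * T ≤ S + 12 * d)
    (h4 : 8 * T ≤ S + 20 * d) (h5 : 10 * T ≤ S + 30 * d) (h6 : 12 * T ≤ S + 42 * d) (h7 : 14 * T ≤ S + 56 * d)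
    (h : S + T + d ≤ d * d) : 185 + 13 * T ≤ 53 * d + S := by
  obtain ⟨r, rfl⟩ := he
  rcases lt_or_ge d 47 with h8 | h8
  · interval_cases d <;> omega
  · omega

theorem deg7 (G : SimpleGraph V) (hG : Crit G) (hH : NoH G) (u : V) (h : (nb G u).Nonempty) : 7 ≤ (nb G u).card := by
  have h1 : 2 * (nb G u).card < tri G u := by
    unfold tri
    have h2 : ∀ v ∈ nb G u, 2 ≤ (cn G u v).card := by
      intro v hv
      refine two G hG u v ?_
      simpa [nb] using hv
    obtain ⟨w, hw, hw3⟩ := star G hG u h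
    have h3 : ∑ v ∈ nb G u, 2 < ∑ v ∈ nb G u, (cn G u v).card :=
      Finset.sum_lt_sum h2 ⟨w, hw, by omega⟩
    rw [Finset.sum_const, smul_eq_mul] at h3
    omega
  have h2 := tang G u 2
  refine ar7 _ _ (opp G u) h1 (even G u) (by omega) (loc G hG hH u)

private theorem vert (G : SimpleGraph V) (hG : Crit G) (hH : NoH G) (u : V) (h : (nb G u).Nonempty) :
    80 + 9 * tri G u ≤ 29 * (nb G u).card + opp G u := by
  have h2 := tang G u 2
  have h3 := tang G u 3
  have h4 := tang G u 4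
  have h5 := tang G u 5
  exact ar80 _ _ _ (deg7 G hG hH u h) (by omega) (by omega) (by omega) (by omega) (loc G hG hH u)

private theorem vert2 (G : SimpleGraph V) (hG : Crit G) (hH : NoH G) (u : V) (h : (nb G u).Nonempty) :
    185 + 13 * tri G u ≤ 53 * (nb G u).card + opp G u := by
  have h2 := tang G u 2
  have h3 := tang G u 3
  have h4 := tang G u 4
  have h5 := tang G u 5
  have h6 := tang G u 6
  have h7 := tang G u 7
  exact ar185 _ _ _ (deg7 G hG hH u h) (even G u) (by omega) (by omega) (by omega) (by omega) (by omega) (by omega)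
    (loc G hG hH u)

private theorem ar360 (n D e : ℕ) (hn : 41 ≤ n) (h1 : 7 * n ≤ D) (h2 : 187 * n ≤ 12 * D + 2 * (n * n)) (h3 : D = 2 * e) :
    180 ≤ e := by
  rcases lt_or_ge n 52 with h4 | h4
  · interval_cases n <;> omega
  · omega

private theorem tri_zero (G : SimpleGraph V) (u : V) (h : ¬ (nb G u).Nonempty) : tri G u = 0 := by
  rw [Finset.not_nonempty_iff_eq_empty] at h
  unfold tri
  rw [h, Finset.sum_empty]

private theorem exU (G : SimpleGraph V) (hG : Crit G) : ∃ u, (nb G u).Nonempty := by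
  by_contra hcon
  apply hG.1
  have hno : ∀ x y, ¬ G.Adj x y := by
    intro x y hxy
    have h1 : y ∈ nb G x := by simp [nb, hxy]
    exact hcon ⟨x, y, h1⟩
  exact ⟨fun _ _ => true, fun x y h => absurd h (hno x y), fun x y z h _ _ => absurd h (hno x y)⟩

/-- the sum of the local inequalities -/
private theorem sums (G : SimpleGraph V) (hG : Crit G) (hH : NoH G) (U : Finset V)
    (hU : U = univ.filter fun u => (nb G u).Nonempty) :
    0 < U.card ∧ 80 * U.card + 9 * ∑ u, tri G u ≤ 29 * ∑ u, (nb G u).card + ∑ u, opp G u ∧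
      185 * U.card + 13 * ∑ u, tri G u ≤ 53 * ∑ u, (nb G u).card + ∑ u, opp G u ∧
      7 * U.card ≤ ∑ u, (nb G u).card ∧ ∑ u, opp G u + 2 * ∑ u, (nb G u).card + 2 * U.card ≤ 2 * (U.card * U.card) := by
  obtain ⟨u0, hu0⟩ := exU G hG
  have hk : ∀ k : ℕ, k * U.card = ∑ u : V, (if (nb G u).Nonempty then k else 0) := by
    intro k
    rw [← Finset.sum_filter, Finset.sum_const, smul_eq_mul, mul_comm, hU]
  refine ⟨Finset.card_pos.2 ⟨u0, by simp [hU, hu0]⟩, ?_, ?_, ?_, ?_⟩
  · rw [hk, Finset.mul_sum, Finset.mul_sum, ← Finset.sum_add_distrib, ← Finset.sum_add_distrib]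
    refine Finset.sum_le_sum fun u _ => ?_
    by_cases h : (nb G u).Nonempty
    · rw [if_pos h]
      exact vert G hG hH u h
    · rw [if_neg h, tri_zero G u h]
      omega
  · rw [hk, Finset.mul_sum, Finset.mul_sum, ← Finset.sum_add_distrib, ← Finset.sum_add_distrib]
    refine Finset.sum_le_sum fun u _ => ?_
    by_cases h : (nb G u).Nonempty
    · rw [if_pos h]
      exact vert2 G hG hH u h
    · rw [if_neg h, tri_zero G u h]
      omega
  · rw [hk]
    refine Finset.sum_le_sum fun u _ => ?_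
    by_cases h : (nb G u).Nonempty
    · rw [if_pos h]
      exact deg7 G hG hH u h
    · rw [if_neg h]
      exact Nat.zero_le _
  · rw [hU]
    exact glob G hG hH

/-- a critical graph without `H_0` has at least 41 vertices -/
theorem crit_vert (G : SimpleGraph V) (hG : Crit G) (hH : NoH G) :
    41 ≤ (univ.filter fun u => (nb G u).Nonempty).card := by
  obtain ⟨h0, h1, -, -, h3⟩ := sums G hG hH _ rfl
  have htri := tri_ge G hG
  set n := (univ.filter fun u => (nb G u).Nonempty).card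
  by_contra hcon
  have h5 : n ≤ 40 := by omega
  have h6 : n * n ≤ 40 * n := Nat.mul_le_mul_right _ h5
  omega

/-- a critical graph without `H_0` has at least 180 edges -/
theorem crit_edge (G : SimpleGraph V) (hG : Crit G) (hH : NoH G) : 180 ≤ G.edgeFinset.card := by
  obtain ⟨h0, -, h2, h7, h3⟩ := sums G hG hH _ rfl
  have htri := tri_ge G hG
  have h4 := crit_vert G hG hH
  exact ar360 _ _ _ h4 h7 (by omega) (sum_nb G)

/-- a critical graph without `H_0` has a vertex of degree at least 10 in at least 15 triangles -/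
theorem crit_tri (G : SimpleGraph V) (hG : Crit G) (hH : NoH G) : ∃ u, 10 ≤ (nb G u).card ∧ 30 ≤ tri G u := by
  obtain ⟨u0, hu0⟩ := exU G hG
  have htri := tri_ge G hG
  obtain ⟨u, hu, h1⟩ : ∃ u, (nb G u).Nonempty ∧ 3 * (nb G u).card ≤ tri G u := by
    by_contra hcon
    push Not at hcon
    have h1 : ∑ u, tri G u < ∑ u, 3 * (nb G u).card := by
      refine Finset.sum_lt_sum (fun u _ => ?_) ⟨u0, Finset.mem_univ _, hcon u0 hu0⟩
      by_cases hu : (nb G u).Nonempty
      · exact (hcon u hu).le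
      · rw [tri_zero G u hu]
        exact Nat.zero_le _
    rw [← Finset.mul_sum] at h1
    omega
  have h2 : 10 ≤ (nb G u).card := by
    by_contra hcon
    have h3 := tang G u 2
    have h4 := ar9 _ _ (opp G u) (Finset.card_pos.2 hu) (by omega) (by omega) (loc G hG hH u)
    omega
  exact ⟨u, h2, by omega⟩

theorem exists_crit (G : SimpleGraph V) (hA : ¬ ∃ c, Good G c) (hH : NoH G) : ∃ H ≤ G, Crit H ∧ NoH H := by
  have hwf : WellFounded ((· < ·) : SimpleGraph V → SimpleGraph V → Prop) := wellFounded_lt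
  obtain ⟨H, ⟨hHG, hHA⟩, hmin⟩ := hwf.has_min {H : SimpleGraph V | H ≤ G ∧ ¬ ∃ c, Good H c} ⟨G, le_rfl, hA⟩
  refine ⟨H, hHG, ⟨hHA, fun G' hG' => ?_⟩, fun u v x y z h1 h2 h3 h4 h5 h6 h7 h8 =>
    hH u v x y z (hHG h1) (hHG h2) (hHG h3) (hHG h4) (hHG h5) h6 (hHG h7) (hHG h8)⟩
  by_contra hcon
  exact hmin G' ⟨hG'.le.trans hHG, hcon⟩ hG'

/-- every triangle at `u` is counted twice by `tri` -/
theorem tri_le (H G : SimpleGraph V) (hHG : H ≤ G) (u : V) :
    tri H u ≤ 2 * {s : Finset V | G.IsNClique 3 s ∧ u ∈ s}.ncard := by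
  set A : Finset (V × V) := (nb H u).sigma (fun v => cn H u v) |>.image (fun p => (p.1, p.2)) with hA
  have h1 : tri H u = A.card := by
    rw [hA, Finset.card_image_of_injective, Finset.card_sigma]
    · rfl
    · rintro ⟨a, b⟩ ⟨c, d⟩ h
      simp only [Prod.mk.injEq] at h
      obtain ⟨rfl, rfl⟩ := h
      rfl
  have hmem : ∀ x y, (x, y) ∈ A ↔ H.Adj u x ∧ H.Adj u y ∧ H.Adj x y := by
    intro x y
    simp only [hA, nb, cn, mem_image, mem_sigma, mem_filter, mem_univ, true_and, Prod.mk.injEq]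
    constructor
    · rintro ⟨⟨a, b⟩, ⟨h2, h3, h4⟩, rfl, rfl⟩
      exact ⟨h2, h3, h4⟩
    · rintro ⟨h2, h3, h4⟩
      exact ⟨⟨x, y⟩, ⟨h2, h3, h4⟩, rfl, rfl⟩
  have h2 : A.card ≤ 2 * (A.image (fun p => ({u, p.1, p.2} : Finset V))).card := by
    refine Finset.card_le_mul_card_image _ _ fun s hs => ?_
    obtain ⟨⟨x, y⟩, hxy, rfl⟩ := Finset.mem_image.1 hs
    obtain ⟨hx, hy, hxy'⟩ := (hmem x y).1 hxy
    have h3 : A.filter (fun p => ({u, p.1, p.2} : Finset V) = {u, x, y}) ⊆ {(x, y), (y, x)} := by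
      rintro ⟨a, b⟩ hab
      obtain ⟨hab, h4⟩ := Finset.mem_filter.1 hab
      obtain ⟨ha, hb, hab'⟩ := (hmem a b).1 hab
      have h5 : a ∈ ({u, x, y} : Finset V) := by rw [← h4]; simp
      have h6 : b ∈ ({u, x, y} : Finset V) := by rw [← h4]; simp
      simp only [Finset.mem_insert, Finset.mem_singleton] at h5 h6 ⊢
      have h7 : a ≠ u := ha.ne'
      have h8 : b ≠ u := hb.ne'
      have h9 : a ≠ b := hab'.ne
      rcases h5 with h5 | h5 | h5 <;> rcases h6 with h6 | h6 | h6 <;> simp_all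
    exact (Finset.card_le_card h3).trans Finset.card_le_two
  have h3 : (A.image (fun p => ({u, p.1, p.2} : Finset V))).card ≤ {s : Finset V | G.IsNClique 3 s ∧ u ∈ s}.ncard := by
    rw [← Set.ncard_coe_finset]
    refine Set.ncard_le_ncard ?_ (Set.toFinite _)
    intro s hs
    obtain ⟨⟨x, y⟩, hxy, rfl⟩ := Finset.mem_image.1 (Finset.mem_coe.1 hs)
    obtain ⟨hx, hy, hxy'⟩ := (hmem x y).1 hxy
    refine ⟨SimpleGraph.is3Clique_triple_iff.2 ⟨hHG hx, hHG hy, hHG hxy'⟩, ?_⟩
    simp
  omega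

/-- `H_0`, from five vertices -/
theorem noH_of (G : SimpleGraph V) (hcon : ¬ ∃ f : Fin 5 → V, Function.Injective f ∧ ∀ i j : Fin 5, i ≠ j →
    ¬ ((i = 0 ∧ j = 1) ∨ (i = 1 ∧ j = 0) ∨ (i = 2 ∧ j = 3) ∨ (i = 3 ∧ j = 2) ∨
      (i = 3 ∧ j = 4) ∨ (i = 4 ∧ j = 3)) → G.Adj (f i) (f j)) : NoH G := by
  intro u v x y z huv hxu hxv hyu hyv hxy hzx hzy
  by_contra hz
  push Not at hz
  obtain ⟨hzu, hzv⟩ := hz
  apply hcon
  refine ⟨![x, y, u, z, v], ?_, ?_⟩
  · intro i j hij
    fin_cases i <;> fin_cases j <;> simp at hij ⊢ <;>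
      first
        | exact absurd hij hxy
        | exact absurd hij.symm hxy
        | exact absurd hij hxu.ne
        | exact absurd hij.symm hxu.ne
        | exact absurd hij hxv.ne
        | exact absurd hij.symm hxv.ne
        | exact absurd hij hyu.ne
        | exact absurd hij.symm hyu.ne
        | exact absurd hij hyv.ne
        | exact absurd hij.symm hyv.ne
        | exact absurd hij hzx.ne
        | exact absurd hij.symm hzx.ne
        | exact absurd hij hzy.ne
        | exact absurd hij.symm hzy.ne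
        | exact absurd hij hzu
        | exact absurd hij.symm hzu
        | exact absurd hij hzv
        | exact absurd hij.symm hzv
        | exact absurd hij huv.ne
        | exact absurd hij.symm huv.ne
  · intro i j hij hn
    fin_cases i <;> fin_cases j <;> simp at hij hn ⊢ <;>
      first
        | exact hxu
        | exact hxu.symm
        | exact hxv
        | exact hxv.symm
        | exact hyu
        | exact hyu.symm
        | exact hyv
        | exact hyv.symm
        | exact hzx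
        | exact hzx.symm
        | exact hzy
        | exact hzy.symm
        | exact huv
        | exact huv.symm

end Pool.Agent.H53.FV
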