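import Pool.Agent.H53.FV.Def

/-!
[H53 FV SRG] there is no strongly regular graph with parameters (41, 10, 3, 2): modulo 11 the matrix `A - 6 I - 6 J` has square 0 and
trace 3.
-/

namespace Pool.Agent.H53.FV

open Finset Classical

private theorem z11 : (11 : ZMod 11) = 0 := by decide
private theorem zt : (0 : ZMod 11) - 6 * 41 - 6 * 41 ≠ 0 := by decide

variable {V : Type} [Fintype V]

theorem srg41 (G : SimpleGraph V) (hV : Fintype.card V = 41) (hd : ∀ u, (nb G u).card = 10)
    (h3 : ∀ u v, G.Adj u v → (cn G u v).card = 3) (h2 : ∀ u v, u ≠ v → ¬ G.Adj u v → (cn G u v).card = 2) : False := by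
  have hF : Fact (Nat.Prime 11) := ⟨by norm_num⟩
  obtain ⟨A, hA⟩ : ∃ A : Matrix V V (ZMod 11), A = Matrix.of fun x y => if G.Adj x y then 1 else 0 := ⟨_, rfl⟩
  obtain ⟨J, hJ⟩ : ∃ J : Matrix V V (ZMod 11), J = Matrix.of fun _ _ => 1 := ⟨_, rfl⟩
  have hAa : ∀ x y, A x y = if G.Adj x y then 1 else 0 := fun x y => by rw [hA]; rfl
  have hJa : ∀ x y, J x y = 1 := fun x y => by rw [hJ]; rfl
  have hrow : ∀ x, ∑ z, A x z = 10 := by
    intro x
    have h4 : ∑ z, A x z = ((nb G x).card : ZMod 11) := by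
      rw [nb, Finset.card_filter]
      push_cast
      exact Finset.sum_congr rfl fun z _ => hAa x z
    rw [h4, hd]
    norm_num
  have hcol : ∀ x, ∑ z, A z x = 10 := by
    intro x
    rw [← hrow x]
    refine Finset.sum_congr rfl fun z _ => ?_
    rw [hAa, hAa, G.adj_comm]
  have hAA : A * A = (8 : ZMod 11) • (1 : Matrix V V (ZMod 11)) + A + (2 : ZMod 11) • J := by
    ext x y
    have h4 : (A * A) x y = ((cn G x y).card : ZMod 11) := by
      rw [Matrix.mul_apply, cn, Finset.card_filter]
      push_cast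
      refine Finset.sum_congr rfl fun z _ => ?_
      rw [hAa, hAa, G.adj_comm z y]
      by_cases ha : G.Adj x z <;> by_cases hb : G.Adj y z <;> simp [ha, hb]
    rw [h4, Matrix.add_apply, Matrix.add_apply, Matrix.smul_apply, Matrix.smul_apply, hJa, hAa, smul_eq_mul, smul_eq_mul]
    by_cases hxy : x = y
    · subst hxy
      have h5 : cn G x x = nb G x := by
        ext z
        simp [cn, nb]
      rw [h5, hd, Matrix.one_apply_eq, if_neg (G.loopless.irrefl x)]
      norm_num
    · rw [Matrix.one_apply_ne hxy]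
      by_cases ha : G.Adj x y
      · rw [h3 x y ha, if_pos ha]
        norm_num
      · rw [h2 x y hxy ha, if_neg ha]
        norm_num
  have hAJ : A * J = (10 : ZMod 11) • J := by
    ext x y
    rw [Matrix.mul_apply, Matrix.smul_apply, hJa, smul_eq_mul, mul_one, ← hrow x]
    exact Finset.sum_congr rfl fun z _ => by rw [hJa, mul_one]
  have hJA : J * A = (10 : ZMod 11) • J := by
    ext x y
    rw [Matrix.mul_apply, Matrix.smul_apply, hJa, smul_eq_mul, mul_one, ← hcol y]
    exact Finset.sum_congr rfl fun z _ => by rw [hJa, one_mul]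
  have hJJ : J * J = (41 : ZMod 11) • J := by
    ext x y
    rw [Matrix.mul_apply, Matrix.smul_apply, hJa, smul_eq_mul, mul_one]
    have h5 : ∑ z, J x z * J z y = ∑ z : V, (1 : ZMod 11) := Finset.sum_congr rfl fun z _ => by rw [hJa, hJa, mul_one]
    rw [h5, Finset.sum_const, Finset.card_univ, hV, nsmul_eq_mul, mul_one]
    norm_num
  have hN : (A - (6 : ZMod 11) • (1 : Matrix V V (ZMod 11)) - (6 : ZMod 11) • J) *
      (A - (6 : ZMod 11) • (1 : Matrix V V (ZMod 11)) - (6 : ZMod 11) • J) = 0 := by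
    simp only [sub_mul, mul_sub, smul_mul_assoc, mul_smul_comm, one_mul, mul_one, hAA, hAJ, hJA, hJJ]
    ext x y
    simp only [Matrix.sub_apply, Matrix.add_apply, Matrix.smul_apply, Matrix.zero_apply, smul_eq_mul]
    linear_combination (4 * (1 : Matrix V V (ZMod 11)) x y - A x y + 130 * J x y) * z11
  have hnil : IsNilpotent (A - (6 : ZMod 11) • (1 : Matrix V V (ZMod 11)) - (6 : ZMod 11) • J) :=
    ⟨2, by rw [pow_two]; exact hN⟩
  have htr := (Matrix.isNilpotent_trace_of_isNilpotent hnil).eq_zero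
  have hAt : Matrix.trace A = 0 := by
    rw [Matrix.trace]
    refine Finset.sum_eq_zero fun x _ => ?_
    rw [Matrix.diag_apply, hAa, if_neg (G.loopless.irrefl x)]
  have hJt : Matrix.trace J = 41 := by
    have h5 : Matrix.trace J = ∑ z : V, (1 : ZMod 11) :=
      Finset.sum_congr rfl fun z _ => by rw [Matrix.diag_apply, hJa]
    rw [h5, Finset.sum_const, Finset.card_univ, hV, nsmul_eq_mul, mul_one]
    norm_num
  rw [Matrix.trace_sub, Matrix.trace_sub, Matrix.trace_smul, Matrix.trace_smul, hAt, hJt,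
    Matrix.trace_one, hV, smul_eq_mul, smul_eq_mul] at htr
  rw [Nat.cast_ofNat] at htr
  exact zt htr

end Pool.Agent.H53.FV
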