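import Pool.Agent.H53.FV.Fin
import Pool.Agent.H53.FV.Srg

/-!
[H53 FV FIN42] a critical graph without `H_0` has at least 42 vertices: with 41 vertices all inequalities are equalities, and the
graph is strongly regular with parameters (41, 10, 3, 2).
-/

namespace Pool.Agent.H53.FV

open Finset Classical

variable {V : Type} [Fintype V]

private theorem ar80 (d T S : ℕ) (hd : 7 ≤ d) (h2 : 4 * T ≤ S + 6 * d) (h3 : 6 * T ≤ S + 12 * d) (h4 : 8 * T ≤ S + 20 * d)
    (h5 : 10 * T ≤ S + 30 * d) (h : S + T + d ≤ d * d) : 80 + 9 * T ≤ 29 * d + S := by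
  rcases lt_or_ge d 20 with h6 | h6
  · interval_cases d <;> omega
  · omega

private theorem eq80 (d T S : ℕ) (hd : 7 ≤ d) (he : Even T) (h2 : 4 * T ≤ S + 6 * d) (h3 : 6 * T ≤ S + 12 * d)
    (h4 : 8 * T ≤ S + 20 * d) (h5 : 10 * T ≤ S + 30 * d) (h : S + T + d ≤ d * d) (heq : 80 + 9 * T = 29 * d + S) :
    d = 10 ∧ T = 30 ∧ S = 60 := by
  obtain ⟨r, rfl⟩ := he
  rcases lt_or_ge d 21 with h6 | h6
  · interval_cases d <;> omega
  · omega

private theorem adj3 (G : SimpleGraph V) (u : V) (hd : (nb G u).card = 10) (hT : tri G u = 30) (hS : opp G u = 60)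
    (v : V) (hv : v ∈ nb G u) : (cn G u v).card = 3 := by
  have h1 : ∑ v ∈ nb G u, (((cn G u v).card : ℤ) - 3) ^ 2 = 0 := by
    have h2 : ∀ v ∈ nb G u, (((cn G u v).card : ℤ) - 3) ^ 2 =
        (((cn G u v).offDiag.card : ℕ) : ℤ) - 5 * ((cn G u v).card : ℤ) + 9 := by
      intro v _
      have h4 : (cn G u v).card ≤ (cn G u v).card * (cn G u v).card := Nat.le_mul_self _
      rw [Finset.offDiag_card, Nat.cast_sub h4]
      push_cast
      ring
    rw [Finset.sum_congr rfl h2, Finset.sum_add_distrib, Finset.sum_sub_distrib, ← Finset.mul_sum, Finset.sum_const, hd,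
      ← Nat.cast_sum, ← Nat.cast_sum]
    have h5 : ∑ v ∈ nb G u, (cn G u v).offDiag.card = 60 := hS
    have h6 : ∑ v ∈ nb G u, (cn G u v).card = 30 := hT
    rw [h5, h6]
    norm_num
  have h2 := (Finset.sum_eq_zero_iff_of_nonneg fun v _ => sq_nonneg (((cn G u v).card : ℤ) - 3)).1 h1 v hv
  have h3 : ((cn G u v).card : ℤ) - 3 = 0 := by
    exact pow_eq_zero_iff (two_ne_zero) |>.1 h2
  omega

theorem crit_42 (G : SimpleGraph V) (hG : Crit G) (hH : NoH G) : 42 ≤ Fintype.card V := by
  have h41 := crit_vert G hG hH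
  have hglob := glob G hG hH
  have htri := tri_ge G hG
  by_contra hcon
  have hle : (univ.filter fun u => (nb G u).Nonempty).card ≤ Fintype.card V := Finset.card_le_univ _
  have hV : Fintype.card V = 41 := by omega
  have hU : (univ.filter fun u => (nb G u).Nonempty) = univ := Finset.eq_univ_of_card _ (by omega)
  have hne : ∀ u, (nb G u).Nonempty := by
    intro u
    have h1 : u ∈ (univ.filter fun u => (nb G u).Nonempty) := by rw [hU]; exact Finset.mem_univ u
    exact (Finset.mem_filter.1 h1).2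
  rw [hU, Finset.card_univ, hV] at hglob
  have h1 : ∀ u ∈ (univ : Finset V), 80 + 9 * tri G u ≤ 29 * (nb G u).card + opp G u := by
    intro u _
    have h2 := tang G u 2
    have h3 := tang G u 3
    have h4 := tang G u 4
    have h5 := tang G u 5
    exact ar80 _ _ _ (deg7 G hG hH u (hne u)) (by omega) (by omega) (by omega) (by omega) (loc G hG hH u)
  have hL : ∑ u : V, (80 + 9 * tri G u) = 80 * 41 + 9 * ∑ u, tri G u := by
    rw [Finset.sum_add_distrib, Finset.sum_const, Finset.card_univ, hV, Finset.mul_sum, smul_eq_mul]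
  have hR : ∑ u : V, (29 * (nb G u).card + opp G u) = 29 * ∑ u, (nb G u).card + ∑ u, opp G u := by
    rw [Finset.sum_add_distrib, Finset.mul_sum]
  have hsum := Finset.sum_le_sum h1
  have heq : ∑ u : V, (80 + 9 * tri G u) = ∑ u : V, (29 * (nb G u).card + opp G u) := by
    rw [hL, hR] at hsum ⊢
    omega
  have hpt : ∀ u, (nb G u).card = 10 ∧ tri G u = 30 ∧ opp G u = 60 := by
    intro u
    have h2 := tang G u 2
    have h3 := tang G u 3
    have h4 := tang G u 4
    have h5 := tang G u 5
    exact eq80 _ _ _ (deg7 G hG hH u (hne u)) (even G u) (by omega) (by omega) (by omega) (by omega) (loc G hG hH u)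
      ((Finset.sum_eq_sum_iff_of_le h1).1 heq u (Finset.mem_univ u))
  rw [hL, hR] at heq
  refine srg41 G hV (fun u => (hpt u).1) (fun u v huv => ?_) (fun u v huv hn => ?_)
  · exact adj3 G u (hpt u).1 (hpt u).2.1 (hpt u).2.2 v (by simpa [nb] using huv)
  · refine B.pair_two G hG hH ?_ u v huv hn
    rw [hV]
    omega

end Pool.Agent.H53.FV
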