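import Pool.Agent.H53.FV.Fin
import Pool.Agent.H53.FV.Dg8

/-!
[H53 FV FIN8] a critical graph without `H_0` has at least 202 edges, and all its degrees are 0 or at least 8
-/

namespace Pool.Agent.H53.FV

open Finset Classical

variable {V : Type} [Fintype V]

theorem deg8 (G : SimpleGraph V) (hG : Crit G) (hH : NoH G) (u : V) (h : (nb G u).Nonempty) : 8 ≤ (nb G u).card := by
  have h1 := deg7 G hG hH u h
  rcases Nat.lt_or_ge (nb G u).card 8 with h2 | h2
  · exact (ne7 G hG hH u (by omega)).elim
  · exact h2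

private theorem arA (d T S : ℕ) (hd : 8 ≤ d) (he : Even T) (h2 : 4 * T ≤ S + 6 * d) (h3 : 6 * T ≤ S + 12 * d)
    (h4 : 8 * T ≤ S + 20 * d) (h5 : 10 * T ≤ S + 30 * d) (h6 : 12 * T ≤ S + 42 * d) (h7 : 14 * T ≤ S + 56 * d)
    (h : S + T + d ≤ d * d) : 328 + 24 * T ≤ 93 * d + 2 * S := by
  obtain ⟨r, rfl⟩ := he
  rcases lt_or_ge d 40 with h8 | h8
  · interval_cases d <;> omega
  · omega

private theorem arB (d T S : ℕ) (hd : 8 ≤ d) (he : Even T) (h2 : 4 * T ≤ S + 6 * d) (h3 : 6 * T ≤ S + 12 * d)
    (h4 : 8 * T ≤ S + 20 * d) (h5 : 10 * T ≤ S + 30 * d) (h6 : 12 * T ≤ S + 42 * d) (h7 : 14 * T ≤ S + 56 * d)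
    (h : S + T + d ≤ d * d) : 400 + 26 * T ≤ 107 * d + 2 * S := by
  obtain ⟨r, rfl⟩ := he
  rcases lt_or_ge d 80 with h8 | h8
  · interval_cases d <;> omega
  · omega

private theorem ar402 (n D e : ℕ) (hn : 41 ≤ n) (h1 : 8 * n ≤ D) (h2 : 332 * n ≤ 17 * D + 4 * (n * n))
    (h3 : 404 * n ≤ 25 * D + 4 * (n * n)) (h4 : D = 2 * e) : 202 ≤ e := by
  rcases lt_or_ge n 51 with h5 | h5
  · interval_cases n <;> omega
  · omega

private theorem tri_zero (G : SimpleGraph V) (u : V) (h : ¬ (nb G u).Nonempty) : tri G u = 0 := by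
  rw [Finset.not_nonempty_iff_eq_empty] at h
  unfold tri
  rw [h, Finset.sum_empty]

theorem crit_edge8 (G : SimpleGraph V) (hG : Crit G) (hH : NoH G) : 202 ≤ G.edgeFinset.card := by
  have htri := tri_ge G hG
  have h41 := crit_vert G hG hH
  have hglob := glob G hG hH
  have hk : ∀ k : ℕ, k * (univ.filter fun u => (nb G u).Nonempty).card = ∑ u : V, (if (nb G u).Nonempty then k else 0) := by
    intro k
    rw [← Finset.sum_filter, Finset.sum_const, smul_eq_mul, mul_comm]
  have hA : 328 * (univ.filter fun u => (nb G u).Nonempty).card + 24 * ∑ u, tri G u ≤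
      93 * ∑ u, (nb G u).card + 2 * ∑ u, opp G u := by
    rw [hk, Finset.mul_sum, Finset.mul_sum, Finset.mul_sum, ← Finset.sum_add_distrib, ← Finset.sum_add_distrib]
    refine Finset.sum_le_sum fun u _ => ?_
    by_cases h : (nb G u).Nonempty
    · rw [if_pos h]
      have h2 := tang G u 2
      have h3 := tang G u 3
      have h4 := tang G u 4
      have h5 := tang G u 5
      have h6 := tang G u 6
      have h7 := tang G u 7
      exact arA _ _ _ (deg8 G hG hH u h) (even G u) (by omega) (by omega) (by omega) (by omega) (by omega) (by omega)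
        (loc G hG hH u)
    · rw [if_neg h, tri_zero G u h]
      omega
  have hB : 400 * (univ.filter fun u => (nb G u).Nonempty).card + 26 * ∑ u, tri G u ≤
      107 * ∑ u, (nb G u).card + 2 * ∑ u, opp G u := by
    rw [hk, Finset.mul_sum, Finset.mul_sum, Finset.mul_sum, ← Finset.sum_add_distrib, ← Finset.sum_add_distrib]
    refine Finset.sum_le_sum fun u _ => ?_
    by_cases h : (nb G u).Nonempty
    · rw [if_pos h]
      have h2 := tang G u 2
      have h3 := tang G u 3
      have h4 := tang G u 4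
      have h5 := tang G u 5
      have h6 := tang G u 6
      have h7 := tang G u 7
      exact arB _ _ _ (deg8 G hG hH u h) (even G u) (by omega) (by omega) (by omega) (by omega) (by omega) (by omega)
        (loc G hG hH u)
    · rw [if_neg h, tri_zero G u h]
      omega
  have h8 : 8 * (univ.filter fun u => (nb G u).Nonempty).card ≤ ∑ u, (nb G u).card := by
    rw [hk]
    refine Finset.sum_le_sum fun u _ => ?_
    by_cases h : (nb G u).Nonempty
    · rw [if_pos h]
      exact deg8 G hG hH u h
    · rw [if_neg h]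
      exact Nat.zero_le _
  exact ar402 _ _ _ h41 h8 (by omega) (by omega) (sum_nb G)

end Pool.Agent.H53.FV
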