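import Pool.Agent.H53.FV.Def

/-!
[H53 FV KER part 2] every triangle has six orders
-/

namespace Pool.Agent.H53.FV.B

open Finset Classical Pool.Agent.H53.FV

variable {V : Type} [Fintype V]

private theorem sum_tri (G : SimpleGraph V) : ∑ u, tri G u =
    (univ.filter fun p : V × V × V => G.Adj p.1 p.2.1 ∧ G.Adj p.1 p.2.2 ∧ G.Adj p.2.1 p.2.2).card := by
  rw [Finset.card_filter, Fintype.sum_prod_type]
  refine Finset.sum_congr rfl fun u _ => ?_
  unfold tri nb
  rw [Finset.sum_filter, Fintype.sum_prod_type]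
  refine Finset.sum_congr rfl fun v _ => ?_
  unfold cn
  rw [Finset.card_filter]
  by_cases h : G.Adj u v
  · simp [h]
  · simp [h]

theorem six (G : SimpleGraph V) : 6 * (G.cliqueFinset 3).card ≤ ∑ u, tri G u := by
  rw [sum_tri]
  have hmap : ∀ p ∈ univ.filter (fun p : V × V × V =>
      G.Adj p.1 p.2.1 ∧ G.Adj p.1 p.2.2 ∧ G.Adj p.2.1 p.2.2),
      ({p.1, p.2.1, p.2.2} : Finset V) ∈ G.cliqueFinset 3 := by
    intro p hp
    obtain ⟨h1, h2, h3⟩ := (Finset.mem_filter.1 hp).2
    rw [SimpleGraph.mem_cliqueFinset_iff, SimpleGraph.is3Clique_iff]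
    exact ⟨p.1, p.2.1, p.2.2, h1, h2, h3, rfl⟩
  rw [Finset.card_eq_sum_card_fiberwise (f := fun p : V × V × V => ({p.1, p.2.1, p.2.2} : Finset V))
    (t := G.cliqueFinset 3) hmap]
  rw [mul_comm, ← smul_eq_mul]
  refine Finset.card_nsmul_le_sum _ _ _ fun t ht => ?_
  rw [SimpleGraph.mem_cliqueFinset_iff, SimpleGraph.is3Clique_iff] at ht
  obtain ⟨a, b, c, hab, hac, hbc, rfl⟩ := ht
  have e1 : a ≠ b := hab.ne
  have e2 : a ≠ c := hac.ne
  have e3 : b ≠ c := hbc.ne
  have hL : ({(a, b, c), (a, c, b), (b, a, c), (b, c, a), (c, a, b), (c, b, a)} :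
      Finset (V × V × V)).card = 6 := by
    rw [Finset.card_insert_of_notMem, Finset.card_insert_of_notMem, Finset.card_insert_of_notMem,
      Finset.card_insert_of_notMem, Finset.card_insert_of_notMem, Finset.card_singleton]
    all_goals simp [e1, e2, e3, e1.symm, e2.symm, e3.symm]
  rw [← hL]
  refine Finset.card_le_card fun p hp => ?_
  simp only [Finset.mem_insert, Finset.mem_singleton] at hp
  rw [Finset.mem_filter, Finset.mem_filter]
  rcases hp with rfl | rfl | rfl | rfl | rfl | rfl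
  · exact ⟨⟨Finset.mem_univ _, hab, hac, hbc⟩, rfl⟩
  · refine ⟨⟨Finset.mem_univ _, hac, hab, hbc.symm⟩, ?_⟩
    ext x
    simp only [Finset.mem_insert, Finset.mem_singleton]
    tauto
  · refine ⟨⟨Finset.mem_univ _, hab.symm, hbc, hac⟩, ?_⟩
    ext x
    simp only [Finset.mem_insert, Finset.mem_singleton]
    tauto
  · refine ⟨⟨Finset.mem_univ _, hbc, hab.symm, hac.symm⟩, ?_⟩
    ext x
    simp only [Finset.mem_insert, Finset.mem_singleton]
    tauto
  · refine ⟨⟨Finset.mem_univ _, hac.symm, hbc.symm, hab⟩, ?_⟩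
    ext x
    simp only [Finset.mem_insert, Finset.mem_singleton]
    tauto
  · refine ⟨⟨Finset.mem_univ _, hbc.symm, hac.symm, hab.symm⟩, ?_⟩
    ext x
    simp only [Finset.mem_insert, Finset.mem_singleton]
    tauto

end Pool.Agent.H53.FV.B
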