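import Pool.Agent.H53.FV.KerA
import Pool.Agent.H53.FV.KerB

/-!
[H53 FV KER] in a critical graph there are at least as many triangles as edges (Seymour).
* `ker`: G critical. If card (G.cliqueFinset 3) < card G.edgeFinset, the linear map
  x |-> (T |-> sum over p, q in T of ext x s(p,q)), from (G.edgeFinset → ℝ) to (G.cliqueFinset 3 → ℝ), has a kernel vector x /= 0
  (LinearMap.ker_ne_bot_of_finrank_lt, Module.finrank_fintype_fun_eq_card); ext x s = x s on edges, 0 elsewhere. So
  y = ext x : Sym2 V → ℝ has y s(a,b) + y s(b,c) + y s(a,c) = 0 on every triangle (the sum over T = {a,b,c} is twice this; the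
  diagonal terms are 0) and y s /= 0 for some edge s. Delete the edges with y /= 0: a proper subgraph, with a good colouring c0.
  Colour a b by true if y s(a,b) > 0, by false if y s(a,b) < 0, by c0 a b if y s(a,b) = 0. A triangle with three edges y = 0
  is not monochromatic by c0; otherwise it has a positive and a negative edge. So G has a good colouring, contradiction.
* `six`: the ordered triangles: sum over u of tri G u = number of (u,v,w) with all adjacent >= 6 * card (G.cliqueFinset 3)
  (fibres of (u,v,w) |-> {u,v,w} contain the six permutations; SimpleGraph.is3Clique_iff).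
* `tri_ge`: with SimpleGraph.sum_degrees_eq_twice_card_edges.
-/

namespace Pool.Agent.H53.FV

open Finset Classical

variable {V : Type} [Fintype V]

theorem ker (G : SimpleGraph V) (hG : Crit G) : G.edgeFinset.card ≤ (G.cliqueFinset 3).card :=
  A.ker G hG

theorem six (G : SimpleGraph V) : 6 * (G.cliqueFinset 3).card ≤ ∑ u, tri G u :=
  B.six G

theorem sum_nb (G : SimpleGraph V) : ∑ u, (nb G u).card = 2 * G.edgeFinset.card := by
  rw [← SimpleGraph.sum_degrees_eq_twice_card_edges]
  refine Finset.sum_congr rfl fun u _ => ?_
  unfold nb
  rw [← SimpleGraph.card_neighborFinset_eq_degree]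
  congr 1
  ext v
  simp

theorem tri_ge (G : SimpleGraph V) (hG : Crit G) : 3 * ∑ u, (nb G u).card ≤ ∑ u, tri G u := by
  have h1 := ker G hG
  have h2 := six G
  have h3 := sum_nb G
  omega

end Pool.Agent.H53.FV
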