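import Pool.Agent.H53.FV.Def

/-!
[H53 FV KER part 1] in a critical graph there are at least as many triangles as edges.
-/

namespace Pool.Agent.H53.FV.A

open Finset Classical

variable {V : Type} [Fintype V]

/-- extension by zero of a function on the edges -/
noncomputable def ext (G : SimpleGraph V) (x : G.edgeFinset → ℝ) (s : Sym2 V) : ℝ :=
  if h : s ∈ G.edgeFinset then x ⟨s, h⟩ else 0

theorem ext_add (G : SimpleGraph V) (x y : G.edgeFinset → ℝ) (s : Sym2 V) :
    ext G (x + y) s = ext G x s + ext G y s := by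
  unfold ext
  split_ifs with h
  · rfl
  · simp

theorem ext_smul (G : SimpleGraph V) (r : ℝ) (x : G.edgeFinset → ℝ) (s : Sym2 V) :
    ext G (r • x) s = r * ext G x s := by
  unfold ext
  split_ifs with h
  · rfl
  · simp

/-- the sums over the triangles -/
noncomputable def lin (G : SimpleGraph V) : (G.edgeFinset → ℝ) →ₗ[ℝ] (G.cliqueFinset 3 → ℝ) where
  toFun x := fun T => ∑ p ∈ T.1, ∑ q ∈ T.1, ext G x s(p, q)
  map_add' x y := by
    funext T
    simp only [Pi.add_apply, ext_add, Finset.sum_add_distrib]
  map_smul' r x := by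
    funext T
    simp only [Pi.smul_apply, ext_smul, RingHom.id_apply, smul_eq_mul, Finset.mul_sum]

theorem ext_tri (G : SimpleGraph V) (x : G.edgeFinset → ℝ) (hx : lin G x = 0) {a b c : V} (hab : G.Adj a b)
    (hbc : G.Adj b c) (hac : G.Adj a c) :
    ext G x s(a, b) + ext G x s(b, c) + ext G x s(a, c) = 0 := by
  have hT : ({a, b, c} : Finset V) ∈ G.cliqueFinset 3 := by
    rw [SimpleGraph.mem_cliqueFinset_iff, SimpleGraph.is3Clique_iff]
    exact ⟨a, b, c, hab, hac, hbc, rfl⟩
  have h1 : ∑ p ∈ ({a, b, c} : Finset V), ∑ q ∈ ({a, b, c} : Finset V), ext G x s(p, q) = 0 :=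
    congrFun hx ⟨_, hT⟩
  have hd : ∀ p : V, ext G x s(p, p) = 0 := by
    intro p
    unfold ext
    rw [dif_neg]
    simp
  have n1 : a ≠ b := hab.ne
  have n2 : b ≠ c := hbc.ne
  have n3 : a ≠ c := hac.ne
  have m1 : a ∉ ({b, c} : Finset V) := by simp [n1, n3]
  have m2 : b ∉ ({c} : Finset V) := by simp [n2]
  simp only [Finset.sum_insert m1, Finset.sum_insert m2, Finset.sum_singleton, hd] at h1
  have e1 : s(b, a) = s(a, b) := Sym2.eq_swap
  have e2 : s(c, b) = s(b, c) := Sym2.eq_swap
  have e3 : s(c, a) = s(a, c) := Sym2.eq_swap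
  rw [e1, e2, e3] at h1
  linarith

theorem ker (G : SimpleGraph V) (hG : Crit G) : G.edgeFinset.card ≤ (G.cliqueFinset 3).card := by
  by_contra hlt
  have hlt' : (G.cliqueFinset 3).card < G.edgeFinset.card := not_le.1 hlt
  have hk : LinearMap.ker (lin G) ≠ ⊥ := by
    apply LinearMap.ker_ne_bot_of_finrank_lt
    rw [Module.finrank_fintype_fun_eq_card, Module.finrank_fintype_fun_eq_card, Fintype.card_coe, Fintype.card_coe]
    exact hlt'
  obtain ⟨x, hx, hx0⟩ := (Submodule.ne_bot_iff _).1 hk
  rw [LinearMap.mem_ker] at hx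
  set y : Sym2 V → ℝ := ext G x with hy
  have hty : ∀ {a b c : V}, G.Adj a b → G.Adj b c → G.Adj a c → y s(a, b) + y s(b, c) + y s(a, c) = 0 :=
    fun h1 h2 h3 => ext_tri G x hx h1 h2 h3
  obtain ⟨e, he⟩ : ∃ e : G.edgeFinset, x e ≠ 0 := by
    by_contra hcon
    push Not at hcon
    exact hx0 (funext hcon)
  -- the subgraph
  let G' : SimpleGraph V :=
    { Adj := fun a b => G.Adj a b ∧ y s(a, b) = 0
      symm := ⟨fun a b h => ⟨h.1.symm, by rw [Sym2.eq_swap]; exact h.2⟩⟩
      loopless := ⟨fun a h => G.loopless.irrefl a h.1⟩ }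
  have hlt2 : G' < G := by
    refine lt_of_le_of_ne (fun a b h => h.1) ?_
    intro heq
    obtain ⟨s, hs⟩ := e
    induction s with
    | h a b =>
      have hab : G.Adj a b := by
        rw [SimpleGraph.mem_edgeFinset, SimpleGraph.mem_edgeSet] at hs
        exact hs
      have hab' : G'.Adj a b := by rw [heq]; exact hab
      have h0 : y s(a, b) = 0 := hab'.2
      apply he
      have : y s(a, b) = x ⟨s(a, b), hs⟩ := by
        rw [hy]
        unfold ext
        rw [dif_pos hs]
      rw [← this]
      exact h0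
  obtain ⟨c0, hc1, hc2⟩ := hG.2 G' hlt2
  apply hG.1
  refine ⟨fun a b => if 0 < y s(a, b) then true else if y s(a, b) < 0 then false else c0 a b, ?_, ?_⟩
  · intro a b hab
    have e1 : s(b, a) = s(a, b) := Sym2.eq_swap
    simp only [e1]
    split_ifs with h1 h2
    · rfl
    · rfl
    · exact hc1 a b ⟨hab, by linarith⟩
  · intro a b c hab hbc hac
    have h0 := hty hab hbc hac
    rintro ⟨h1, h2⟩
    by_cases z1 : y s(a, b) = 0
    · by_cases z2 : y s(b, c) = 0
      · have z3 : y s(a, c) = 0 := by linarith
        simp only [z1, z2, z3, lt_irrefl, if_false] at h1 h2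
        exact hc2 a b c ⟨hab, z1⟩ ⟨hbc, z2⟩ ⟨hac, z3⟩ ⟨h1, h2⟩
      · rcases lt_or_gt_of_ne z2 with h | h
        · have h3 : 0 < y s(a, c) := by linarith
          have h4 : ¬ 0 < y s(b, c) := by linarith
          simp only [h4, h3, h, if_true, if_false] at h2
          exact absurd h2 (by decide)
        · have h3 : y s(a, c) < 0 := by linarith
          have h4 : ¬ 0 < y s(a, c) := by linarith
          simp only [h4, h3, h, if_true, if_false] at h2
          exact absurd h2 (by decide)
    · rcases lt_or_gt_of_ne z1 with h | h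
      · have hn : ¬ 0 < y s(a, b) := by linarith
        by_cases h3 : 0 < y s(b, c)
        · simp only [hn, h, h3, if_true, if_false] at h1
          exact absurd h1 (by decide)
        · have h4 : 0 < y s(a, c) := by linarith
          have h5 := h1.trans h2
          simp only [hn, h, h4, if_true, if_false] at h5
          exact absurd h5 (by decide)
      · by_cases h3 : y s(b, c) < 0
        · have h4 : ¬ 0 < y s(b, c) := by linarith
          simp only [h, h3, h4, if_true, if_false] at h1
          exact absurd h1 (by decide)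
        · have h4 : y s(a, c) < 0 := by linarith
          have h6 : ¬ 0 < y s(a, c) := by linarith
          have h5 := h1.trans h2
          simp only [h, h4, h6, if_true, if_false] at h5
          exact absurd h5 (by decide)

end Pool.Agent.H53.FV.A
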